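import Mathlib

/-! While programs on registers; every primitive recursive function is computed by one, and
there is a fixed program whose halting set is not computable. -/

namespace Pool.Agent.H38.CM

open Function

inductive W : Type
  | inc (r : ℕ) : W
  | skip : W
  | seq (a b : W) : W
  | loop (r : ℕ) (b : W) : W

inductive Ev : W → (ℕ → ℕ) → (ℕ → ℕ) → Prop
  | inc (r : ℕ) (v : ℕ → ℕ) : Ev (.inc r) v (update v r (v r + 1))
  | skip (v : ℕ → ℕ) : Ev .skip v v
  | seq {a b : W} {u v w : ℕ → ℕ} : Ev a u v → Ev b v w → Ev (.seq a b) u w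
  | l0 {r : ℕ} {b : W} {v : ℕ → ℕ} : v r = 0 → Ev (.loop r b) v v
  | l1 {r : ℕ} {b : W} {v u w : ℕ → ℕ} {n : ℕ} : v r = n + 1 → Ev b (update v r n) u →
      Ev (.loop r b) u w → Ev (.loop r b) v w

theorem Ev.det {w : W} {v a b : ℕ → ℕ} (h : Ev w v a) (h' : Ev w v b) : a = b := by
  induction h generalizing b with
  | inc r v => cases h'; rfl
  | skip v => cases h'; rfl
  | seq _ _ ih1 ih2 =>
    cases h' with
    | seq g1 g2 => cases ih1 g1; exact ih2 g2
  | l0 h0 =>
    cases h' with
    | l0 _ => rfl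
    | l1 g _ _ => omega
  | l1 h1 _ _ ih1 ih2 =>
    cases h' with
    | l0 g => omega
    | l1 g g1 g2 =>
      rename_i n _ _ _ n'
      obtain rfl : n = n' := by omega
      cases ih1 g1; exact ih2 g2

/-- Generic loop rule: an invariant indexed by the number of rounds. -/
theorem loop_inv (r : ℕ) (b : W) (P : ℕ → (ℕ → ℕ) → Prop) (N : ℕ)
    (hstep : ∀ k v, k < N → P k v → v r = N - k →
      ∃ u, Ev b (update v r (N - k - 1)) u ∧ P (k + 1) u ∧ u r = N - k - 1) :
    ∀ j k v, k + j = N → P k v → v r = N - k → ∃ u, Ev (.loop r b) v u ∧ P N u ∧ u r = 0 := by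
  intro j
  induction j with
  | zero =>
    intro k v hk hP hv
    obtain rfl : k = N := by omega
    exact ⟨v, Ev.l0 (by omega), hP, by omega⟩
  | succ j ih =>
    intro k v hk hP hv
    obtain ⟨u, hu, hP', hu'⟩ := hstep k v (by omega) hP hv
    obtain ⟨w, hw, hPw⟩ := ih (k + 1) u (by omega) hP' (by omega)
    exact ⟨w, Ev.l1 (n := N - k - 1) (by omega) hu hw, hPw⟩

def clear (r : ℕ) : W := .loop r .skip

theorem ev_clear (r : ℕ) (v : ℕ → ℕ) : Ev (clear r) v (update v r 0) := by
  obtain ⟨u, hu, hP, h0⟩ := loop_inv r .skip (fun _ u => ∀ s, s ≠ r → u s = v s) (v r)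
    (fun k u hk hP hu => ⟨_, Ev.skip _, fun s hs => by simp [update_of_ne hs, hP s hs], by simp⟩)
    (v r) 0 v (by simp) (fun _ _ => rfl) (by simp)
  have e : update v r 0 = u := by
    funext s
    by_cases hs : s = r
    · subst hs; simp [h0]
    · simp [update_of_ne hs, hP s hs]
  rw [e]; exact hu

/-- `copy r o t` puts the value of `r` into `o`, using `t` as scratch. -/
def copy (r o t : ℕ) : W :=
  .seq (clear o) (.seq (clear t) (.seq (.loop r (.seq (.inc o) (.inc t))) (.loop t (.inc r))))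

theorem ev_copy (r o t : ℕ) (h1 : r ≠ o) (h2 : r ≠ t) (h3 : o ≠ t) (v : ℕ → ℕ) :
    ∃ u, Ev (copy r o t) v u ∧ u o = v r ∧ ∀ s, s ≠ o → s ≠ t → u s = v s := by
  obtain ⟨u, hu, ⟨ho, ht, hP⟩, h0⟩ := loop_inv r (.seq (.inc o) (.inc t))
    (fun k u => u o = k ∧ u t = k ∧ ∀ s, s ≠ r → s ≠ o → s ≠ t → u s = v s) (v r)
    (fun k u hk hP hu => ⟨_, Ev.seq (Ev.inc _ _) (Ev.inc _ _), ⟨by
      simp [update_of_ne h3, update_of_ne h1.symm, hP.1], by
      simp [update_of_ne h3.symm, update_of_ne h2.symm, hP.2.1], fun s a b c => by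
      simp [update_of_ne a, update_of_ne b, update_of_ne c, hP.2.2 s a b c]⟩, by
      simp [update_of_ne h1, update_of_ne h2]⟩)
    (v r) 0 (update (update v o 0) t 0) (by simp)
    ⟨by simp [update_of_ne h3], by simp, fun s a b c => by simp [update_of_ne b, update_of_ne c]⟩
    (by simp [update_of_ne h1, update_of_ne h2])
  obtain ⟨w, hw, ⟨hr, hQ⟩, h0'⟩ := loop_inv t (.inc r)
    (fun k w => w r = k ∧ ∀ s, s ≠ r → s ≠ t → w s = u s) (v r)
    (fun k w hk hP hw => ⟨_, Ev.inc _ _, ⟨by simp [update_of_ne h2, hP.1], fun s a b => by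
      simp [update_of_ne a, update_of_ne b, hP.2 s a b]⟩, by simp [update_of_ne h2.symm]⟩)
    (v r) 0 u (by simp) ⟨h0, fun _ _ _ => rfl⟩ (by simp [ht])
  refine ⟨w, Ev.seq (ev_clear _ _) (Ev.seq (ev_clear _ _) (Ev.seq hu hw)), ?_, ?_⟩
  · rw [hQ o h1.symm h3, ho]
  · intro s a b
    by_cases hs : s = r
    · subst hs; exact hr
    · rw [hQ s hs b, hP s hs a b]

def Comp (n : ℕ) (f : List.Vector ℕ n → ℕ) : Prop :=
  ∀ (ins : Fin n → ℕ) (out b : ℕ), (∀ i, ins i < b) → out < b → (∀ i, ins i ≠ out) →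
    ∃ w, ∀ v, ∃ u, Ev w v u ∧ u out = f (List.Vector.ofFn fun i => v (ins i)) ∧
      ∀ s < b, s ≠ out → u s = v s

theorem comp_of_prim {n : ℕ} {f : List.Vector ℕ n → ℕ} (hf : Nat.Primrec' f) : Comp n f := by
  induction hf with
  | zero =>
    intro ins out b _ _ _
    exact ⟨clear out, fun v => ⟨_, ev_clear _ _, by simp, fun s _ hs => by simp [update_of_ne hs]⟩⟩
  | succ =>
    intro ins out b h1 h2 h3
    refine ⟨.seq (copy (ins 0) out b) (.inc out), fun v => ?_⟩
    obtain ⟨u, hu, ho, hs⟩ := ev_copy (ins 0) out b (h3 0) (h1 0).ne h2.ne v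
    refine ⟨_, Ev.seq hu (Ev.inc _ _), by simp [ho], fun s a c => ?_⟩
    simp [update_of_ne c, hs s c a.ne]
  | get i =>
    intro ins out b h1 h2 h3
    refine ⟨copy (ins i) out b, fun v => ?_⟩
    obtain ⟨u, hu, ho, hs⟩ := ev_copy (ins i) out b (h3 i) (h1 i).ne h2.ne v
    exact ⟨_, hu, by simp [ho], fun s a c => hs s c a.ne⟩
  | @comp m n f g _ _ ihf ihg =>
    intro ins out b h1 h2 h3
    have key : ∀ k, k ≤ n → ∃ w, ∀ v, ∃ u, Ev w v u ∧
        (∀ i : Fin n, i.val < k → u (b + i) = g i (List.Vector.ofFn fun j => v (ins j))) ∧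
        ∀ s < b, u s = v s := by
      intro k
      induction k with
      | zero => intro _; exact ⟨.skip, fun v => ⟨v, Ev.skip _, by simp, by simp⟩⟩
      | succ k ih =>
        intro hk
        obtain ⟨w, hw⟩ := ih (by omega)
        obtain ⟨w', hw'⟩ := ihg ⟨k, hk⟩ ins (b + k) (b + n) (fun i => by have := h1 i; omega)
          (by omega) (fun i => by have := h1 i; omega)
        refine ⟨.seq w w', fun v => ?_⟩
        obtain ⟨u, hu, a1, a2⟩ := hw v
        obtain ⟨u', hu', b1, b2⟩ := hw' u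
        refine ⟨u', Ev.seq hu hu', fun i hi => ?_, fun s hs => ?_⟩
        · by_cases hik : i.val = k
          · obtain rfl : i = ⟨k, hk⟩ := Fin.ext hik
            rw [b1]
            congr 2
            funext j
            exact a2 _ (h1 j)
          · rw [b2 _ (by omega) (by omega), a1 i (by omega)]
        · rw [b2 s (by omega) (by omega), a2 s hs]
    obtain ⟨w, hw⟩ := key n le_rfl
    obtain ⟨w', hw'⟩ := ihf (fun i => b + i) out (b + n) (fun i => by omega) (by omega)
      (fun i => by omega)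
    refine ⟨.seq w w', fun v => ?_⟩
    obtain ⟨u, hu, a1, a2⟩ := hw v
    obtain ⟨u', hu', b1, b2⟩ := hw' u
    refine ⟨u', Ev.seq hu hu', ?_, fun s hs hs' => ?_⟩
    · rw [b1]
      congr 2
      funext i
      exact a1 i i.2
    · rw [b2 s (by omega) hs', a2 s hs]
  | @prec n f g _ _ ihf ihg =>
    intro ins out b h1 h2 h3
    obtain ⟨wf, hwf⟩ := ihf (fun i => ins i.succ) (b + 2) (b + 3)
      (fun i => by have := h1 i.succ; omega) (by omega) (fun i => by have := h1 i.succ; omega)
    obtain ⟨wg, hwg⟩ := ihg (Fin.cons (b + 1) (Fin.cons (b + 2) fun i => ins i.succ)) out (b + 3)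
      (fun i => by
        refine Fin.cases (by simp) (fun i => Fin.cases (by simp) (fun i => ?_) i) i
        have := h1 i.succ
        simp; omega) (by omega)
      (fun i => by
        refine Fin.cases (by simp; omega) (fun i => Fin.cases (by simp; omega) (fun i => ?_) i) i
        simpa using h3 i.succ)
    refine ⟨.seq wf (.seq (clear (b + 1)) (.seq (copy (ins 0) b (b + 3))
      (.seq (.loop b (.seq wg (.seq (copy out (b + 2) (b + 3)) (.inc (b + 1)))))
        (copy (b + 2) out (b + 3))))), fun v => ?_⟩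
    set T : List.Vector ℕ n := List.Vector.ofFn fun i => v (ins i.succ) with hT
    let F : ℕ → ℕ := fun k => Nat.rec (f T) (fun y IH => g (y ::ᵥ IH ::ᵥ T)) k
    obtain ⟨u1, e1, a1, a2⟩ := hwf v
    obtain ⟨u2, e2, b1, b2⟩ := ev_copy (ins 0) b (b + 3) (h1 0).ne (by have := h1 0; omega)
      (by omega) (update u1 (b + 1) 0)
    have hN : u2 b = v (ins 0) := by
      have := h1 0
      rw [b1, update_of_ne (by omega), a2 _ (by omega) (by omega)]
    obtain ⟨u3, e3, ⟨c1, c2, c3⟩, -⟩ := loop_inv b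
      (.seq wg (.seq (copy out (b + 2) (b + 3)) (.inc (b + 1))))
      (fun k u => u (b + 1) = k ∧ u (b + 2) = F k ∧ ∀ s < b, s ≠ out → u s = v s) (v (ins 0))
      (fun k u hk hP hu => by
        obtain ⟨x1, f1, d1, d2⟩ := hwg (update u b (v (ins 0) - k - 1))
        obtain ⟨x2, f2, g1, g2⟩ := ev_copy out (b + 2) (b + 3) (by omega) (by omega) (by omega) x1
        refine ⟨_, Ev.seq f1 (Ev.seq f2 (Ev.inc _ _)), ⟨?_, ?_, fun s hs hs' => ?_⟩, ?_⟩
        · rw [update_self, g2 _ (by omega) (by omega), d2 _ (by omega) (by omega),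
            update_of_ne (by omega), hP.1]
        · rw [update_of_ne (by omega), g1, d1]
          show _ = g (k ::ᵥ F k ::ᵥ T)
          congr 1
          apply List.Vector.ext
          intro i
          refine Fin.cases ?_ (fun i => Fin.cases ?_ (fun i => ?_) i) i
          · simp [hP.1]
          · rw [List.Vector.get_cons_succ, List.Vector.get_cons_zero]
            simp [hP.2.1]
          · have := h1 i.succ
            simp [hT, update_of_ne this.ne, hP.2.2 _ this (h3 _)]
        · rw [update_of_ne (by omega), g2 _ (by omega) (by omega), d2 _ (by omega) hs',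
            update_of_ne (by omega), hP.2.2 s hs hs']
        · rw [update_of_ne (by omega), g2 _ (by omega) (by omega), d2 _ (by omega) (by omega),
            update_self])
      (v (ins 0)) 0 u2 (by simp)
      ⟨by rw [b2 _ (by omega) (by omega), update_self],
       by rw [b2 _ (by omega) (by omega), update_of_ne (by omega), a1]; rfl,
       fun s hs hs' => by
        rw [b2 _ (by omega) (by omega), update_of_ne (by omega), a2 _ (by omega) (by omega)]⟩
      (by simp [hN])
    obtain ⟨u4, e4, d1, d2⟩ := ev_copy (b + 2) out (b + 3) (by omega) (by omega) (by omega) u3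
    refine ⟨u4, Ev.seq e1 (Ev.seq (ev_clear _ _) (Ev.seq e2 (Ev.seq e3 e4))), ?_, fun s hs hs' => ?_⟩
    · rw [d1, c2]
      have e : (List.Vector.ofFn fun i => v (ins i)).tail = T := by
        rw [List.Vector.tail_ofFn]
      simp only [List.Vector.head_ofFn, e]
      rfl
    · rw [d2 _ hs' (by omega), c3 s hs hs']

/-- The initial valuation: `x` in register `0`, zero elsewhere. -/
def init (x : ℕ) : ℕ → ℕ := update (fun _ => 0) 0 x

theorem exists_search (g : ℕ → ℕ → Bool) (hg : Primrec₂ g) :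
    ∃ w : W, ∀ x, (∃ u, Ev w (init x) u) ↔ ∃ k, g x k = true := by
  have hp : Nat.Primrec' (n := 2) fun v => if g v.head v.tail.head then 0 else 1 := by
    apply Nat.Primrec'.prim_iff.2
    refine Primrec.ite ?_ (Primrec.const 0) (Primrec.const 1)
    refine Primrec.eq.comp (hg.comp Primrec.vector_head
      (Primrec.vector_head.comp Primrec.vector_tail)) (Primrec.const true)
  obtain ⟨w, hw⟩ := comp_of_prim hp ![0, 1] 2 3 (fun i => by fin_cases i <;> simp) (by omega)
    (fun i => by fin_cases i <;> simp)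
  have hw' : ∀ v, ∃ u, Ev (.seq w (.inc 1)) v u ∧ u 2 = (if g (v 0) (v 1) then 0 else 1) ∧
      u 0 = v 0 ∧ u 1 = v 1 + 1 := by
    intro v
    obtain ⟨u, e, a1, a2⟩ := hw v
    refine ⟨_, Ev.seq e (Ev.inc _ _), ?_, ?_, ?_⟩
    · rw [update_of_ne (by omega), a1]; simp [List.Vector.tail_ofFn]
    · rw [update_of_ne (by omega), a2 0 (by omega) (by omega)]
    · rw [update_self, a2 1 (by omega) (by omega)]
  refine ⟨.seq (.inc 2) (.loop 2 (.seq w (.inc 1))), fun x => ⟨?_, ?_⟩⟩
  · rintro ⟨u, hu⟩
    have key : ∀ (p : W) (v u : ℕ → ℕ), Ev p v u → p = .loop 2 (.seq w (.inc 1)) → v 2 ≠ 0 →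
        ∃ k, g (v 0) k = true := by
      intro p v u h
      induction h with
      | inc => intro h; cases h
      | skip => intro h; cases h
      | seq => intro h; cases h
      | l0 h0 => intro h h2; cases h; exact absurd h0 h2
      | @l1 r b v u' w' n h1 e1 e2 _ ih2 =>
        intro h _
        cases h
        obtain ⟨y, f1, a1, a2, a3⟩ := hw' (update v 2 n)
        cases f1.det e1
        rw [update_of_ne (by omega)] at a2
        rw [update_of_ne (by omega), update_of_ne (by omega)] at a1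
        by_cases hgv : g (v 0) (v 1) = true
        · exact ⟨_, hgv⟩
        · rw [← a2]
          exact ih2 rfl (by simp [a1, hgv])
    cases hu with
    | seq f1 f2 =>
      cases f1
      simpa [init] using key _ _ _ f2 rfl (by simp)
  · rintro ⟨k, hk⟩
    have key : ∀ j (v : ℕ → ℕ), v 0 = x → v 1 + j = k → v 2 = 1 →
        ∃ u, Ev (.loop 2 (.seq w (.inc 1))) v u := by
      intro j
      induction j with
      | zero =>
        intro v h0 h1 h2
        obtain ⟨y, f1, a1, a2, a3⟩ := hw' (update v 2 0)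
        rw [update_of_ne (by omega), update_of_ne (by omega), h0, show v 1 = k by omega, hk] at a1
        exact ⟨y, Ev.l1 (n := 0) h2 f1 (Ev.l0 (by simpa using a1))⟩
      | succ j ih =>
        intro v h0 h1 h2
        obtain ⟨y, f1, a1, a2, a3⟩ := hw' (update v 2 0)
        rw [update_of_ne (by omega)] at a2 a3
        by_cases hy : y 2 = 0
        · exact ⟨y, Ev.l1 (n := 0) h2 f1 (Ev.l0 hy)⟩
        · obtain ⟨u, hu⟩ := ih y (by omega) (by omega) (by split_ifs at a1 <;> omega)
          exact ⟨u, Ev.l1 (n := 0) h2 f1 hu⟩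
    obtain ⟨u, hu⟩ := key k (update (init x) 2 (init x 2 + 1)) (by simp [init]) (by simp [init])
      (by simp [init])
    exact ⟨u, Ev.seq (Ev.inc _ _) hu⟩

open Nat.Partrec.Code in
/-- A fixed while program with an undecidable halting set. -/
theorem exists_undec : ∃ w : W, ¬ ComputablePred fun x : ℕ => ∃ u, Ev w (init x) u := by
  obtain ⟨w, hw⟩ := exists_search
    (fun x k => (evaln k (Denumerable.ofNat Nat.Partrec.Code x) 0).isSome) (by
      refine Primrec.option_isSome.comp ?_
      exact primrec_evaln.comp (((Primrec.snd.pair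
        ((Primrec.ofNat Nat.Partrec.Code).comp Primrec.fst))).pair (Primrec.const 0)))
  refine ⟨w, fun h => ComputablePred.halting_problem 0 ?_⟩
  have h2 : ComputablePred fun c : Nat.Partrec.Code => ∃ u, Ev w (init (Encodable.encode c)) u := by
    obtain ⟨d, hd⟩ := h
    exact ⟨fun c => d _, hd.comp Computable.encode⟩
  refine h2.of_eq fun c => ?_
  rw [hw]
  simp only [Denumerable.ofNat_encode]
  constructor
  · rintro ⟨k, hk⟩
    obtain ⟨y, hy⟩ := Option.isSome_iff_exists.1 hk
    exact Part.dom_iff_mem.2 ⟨y, evaln_sound hy⟩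
  · intro h
    obtain ⟨y, hy⟩ := Part.dom_iff_mem.1 h
    obtain ⟨k, hk⟩ := evaln_complete.1 hy
    exact ⟨k, Option.isSome_iff_exists.2 ⟨y, hk⟩⟩

end Pool.Agent.H38.CM
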