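import Pool.Agent.H38.CM.W

/-! Finite-state queue automata that never write the empty word simulate while programs.
Symbol `0` is the end marker, `1` is garbage and `r + 2` is one unit of register `r`. -/

namespace Pool.Agent.H38.CM

open Function Relation

def St : W → Type
  | .inc _ => Unit
  | .skip => Unit
  | .seq a b => St a ⊕ St b
  | .loop _ b => Bool ⊕ St b

theorem St.finite : ∀ w, Finite (St w)
  | .inc _ => inferInstanceAs (Finite Unit)
  | .skip => inferInstanceAs (Finite Unit)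
  | .seq a b => by
    haveI := St.finite a; haveI := St.finite b; exact inferInstanceAs (Finite (St a ⊕ St b))
  | .loop _ b => by haveI := St.finite b; exact inferInstanceAs (Finite (Bool ⊕ St b))

def entry : (w : W) → St w
  | .inc _ => ()
  | .skip => ()
  | .seq a _ => .inl (entry a)
  | .loop _ _ => .inl false

def jmp {α β : Type} (f : α → Option β) (e : Option β) : Option α → Option β
  | none => e
  | some s => f s

def qs : (w : W) → St w → ℕ → Option (St w) × List ℕ
  | .inc r, s, x => if x = 0 then (none, [r + 2, 0]) else (some s, [x])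
  | .skip, s, x => if x = 0 then (none, [0]) else (some s, [x])
  | .seq a b, .inl s, x =>
    (jmp (fun t => some (.inl t)) (some (.inr (entry b))) (qs a s x).1, (qs a s x).2)
  | .seq _ b, .inr s, x => (jmp (fun t => some (.inr t)) none (qs b s x).1, (qs b s x).2)
  | .loop r _, .inl false, x =>
    if x = 0 then (none, [0]) else if x = r + 2 then (some (.inl true), [1])
      else (some (.inl false), [x])
  | .loop _ b, .inl true, x =>
    if x = 0 then (some (.inr (entry b)), [0]) else (some (.inl true), [x])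
  | .loop _ b, .inr s, x =>
    (jmp (fun t => some (.inr t)) (some (.inl false)) (qs b s x).1, (qs b s x).2)

theorem qs_ne_nil : ∀ (w : W) (s : St w) (x : ℕ), (qs w s x).2 ≠ []
  | .inc r, s, x => by simp only [qs]; split_ifs <;> simp
  | .skip, s, x => by simp only [qs]; split_ifs <;> simp
  | .seq a b, .inl s, x => qs_ne_nil a s x
  | .seq a b, .inr s, x => qs_ne_nil b s x
  | .loop r b, .inl false, x => by simp only [qs]; split_ifs <;> simp
  | .loop r b, .inl true, x => by simp only [qs]; split_ifs <;> simp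
  | .loop r b, .inr s, x => qs_ne_nil b s x

def bd : W → ℕ
  | .inc r => r + 3
  | .skip => 3
  | .seq a b => bd a + bd b
  | .loop _ b => bd b

theorem bd_ge : ∀ w, 3 ≤ bd w
  | .inc r => by simp [bd]
  | .skip => by simp [bd]
  | .seq a b => by have := bd_ge a; simp only [bd]; omega
  | .loop _ b => bd_ge b

theorem qs_lt (K : ℕ) : ∀ (w : W) (s : St w) (x : ℕ), bd w ≤ K → x < K →
    ∀ y ∈ (qs w s x).2, y < K
  | .inc r, s, x => by simp only [qs, bd]; split_ifs <;> simp <;> omega
  | .skip, s, x => by simp only [qs, bd]; split_ifs <;> simp <;> omega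
  | .seq a b, .inl s, x => fun h => qs_lt K a s x (by simp only [bd] at h; omega)
  | .seq a b, .inr s, x => fun h => qs_lt K b s x (by simp only [bd] at h; omega)
  | .loop r b, .inl false, x => by
    have := bd_ge b; simp only [qs, bd]; split_ifs <;> simp <;> omega
  | .loop r b, .inl true, x => by simp only [qs, bd]; split_ifs <;> simp <;> omega
  | .loop r b, .inr s, x => fun h => qs_lt K b s x h

/-- One step of the queue automaton; `none` is the halting state. -/
def QStep (w : W) (c d : Option (St w) × List ℕ) : Prop :=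
  ∃ s x t, c = (some s, x :: t) ∧ d = ((qs w s x).1, t ++ (qs w s x).2)

def Rep (l : List ℕ) (v : ℕ → ℕ) : Prop := 0 ∉ l ∧ ∀ r, l.count (r + 2) = v r

theorem QStep.mk' {w : W} {s : St w} {x : ℕ} {t : List ℕ} {q : Option (St w)} {o : List ℕ}
    (h : qs w s x = (q, o)) : QStep w (some s, x :: t) (q, t ++ o) :=
  ⟨s, x, t, rfl, by rw [h]⟩

theorem copy_run {w : W} {s : St w} (l : List ℕ) (h : ∀ x ∈ l, qs w s x = (some s, [x]))
    (t : List ℕ) : ReflTransGen (QStep w) (some s, l ++ t) (some s, t ++ l) := by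
  induction l generalizing t with
  | nil => simp; exact ReflTransGen.refl
  | cons x l ih =>
    refine ReflTransGen.head (QStep.mk' (h x (by simp))) ?_
    have := ih (fun y hy => h y (by simp [hy])) (t ++ [x])
    simpa using this

theorem lift_run {a w : W} (f : St a → St w) (e : Option (St w))
    (h : ∀ s x, qs w (f s) x = (jmp (fun t => some (f t)) e (qs a s x).1, (qs a s x).2))
    {c d : Option (St a) × List ℕ} (hr : ReflTransGen (QStep a) c d) :
    ReflTransGen (QStep w) (jmp (fun t => some (f t)) e c.1, c.2)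
      (jmp (fun t => some (f t)) e d.1, d.2) := by
  induction hr with
  | refl => exact ReflTransGen.refl
  | tail _ hs ih =>
    obtain ⟨s, x, t, rfl, rfl⟩ := hs
    exact ih.tail (QStep.mk' (h s x))

theorem Rep.inc {l : List ℕ} {v : ℕ → ℕ} (h : Rep l v) (r : ℕ) :
    Rep (l ++ [r + 2]) (update v r (v r + 1)) := by
  refine ⟨by simp [h.1], fun s => ?_⟩
  by_cases hs : s = r
  · subst hs; simp [h.2]
  · simp [update_of_ne hs, h.2, List.count_singleton, Ne.symm hs]

theorem Rep.dec {l1 l2 : List ℕ} {v : ℕ → ℕ} {r : ℕ} (h : Rep (l1 ++ (r + 2) :: l2) v) :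
    ∃ n, v r = n + 1 ∧ Rep (l1 ++ 1 :: l2) (update v r n) := by
  refine ⟨(l1 ++ l2).count (r + 2), by simp [← h.2, add_assoc], by simpa using h.1, fun s => ?_⟩
  by_cases hs : s = r
  · subst hs; simp [List.count_cons]
  · simp [update_of_ne hs, ← h.2, List.count_cons, Ne.symm hs]

theorem run_of_ev {w : W} {v v' : ℕ → ℕ} (h : Ev w v v') : ∀ l, Rep l v →
    ∃ l', Rep l' v' ∧ ReflTransGen (QStep w) (some (entry w), l ++ [0]) (none, l' ++ [0]) := by
  induction h with
  | inc r v =>
    intro l hl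
    refine ⟨_, hl.inc r, (copy_run l (fun x hx => ?_) [0]).tail ?_⟩
    · have : x ≠ 0 := fun e => hl.1 (e ▸ hx)
      simp [qs, this]
    · have : QStep (.inc r) (some (entry _), 0 :: l) (none, l ++ [r + 2, 0]) :=
        QStep.mk' (by simp [qs])
      simpa using this
  | skip v =>
    intro l hl
    refine ⟨_, hl, (copy_run l (fun x hx => ?_) [0]).tail (QStep.mk' (by simp [qs]))⟩
    have : x ≠ 0 := fun e => hl.1 (e ▸ hx)
    simp [qs, this]
  | @seq a b _ _ _ _ _ ih1 ih2 =>
    intro l hl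
    obtain ⟨l1, r1, h1⟩ := ih1 l hl
    obtain ⟨l2, r2, h2⟩ := ih2 l1 r1
    exact ⟨l2, r2, (lift_run (w := .seq a b) Sum.inl (some (.inr (entry b))) (fun _ _ => rfl) h1).trans
      (lift_run (w := .seq a b) Sum.inr none (fun _ _ => rfl) h2)⟩
  | @l0 r b v h0 =>
    intro l hl
    refine ⟨_, hl, (copy_run l (fun x hx => ?_) [0]).tail (QStep.mk' (by simp [qs, entry]))⟩
    have h1 : x ≠ 0 := fun e => hl.1 (e ▸ hx)
    have h2 : x ≠ r + 2 := by
      rintro rfl
      exact (List.count_eq_zero.1 ((hl.2 r).trans h0)) hx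
    simp [qs, entry, h1, h2]
  | @l1 r b v u w n h1 _ _ ih1 ih2 =>
    intro l hl
    have hm : r + 2 ∈ l := List.count_pos_iff.1 (by rw [hl.2, h1]; omega)
    obtain ⟨l1, l2, rfl, hn⟩ := List.eq_append_cons_of_mem hm
    obtain ⟨n', hn', r0⟩ := hl.dec
    obtain rfl : n' = n := by omega
    obtain ⟨l3, r1, g1⟩ := ih1 _ r0
    obtain ⟨l4, r2, g2⟩ := ih2 _ r1
    refine ⟨l4, r2, ReflTransGen.trans ?_ ((lift_run (w := .loop r b) Sum.inr (some (.inl false))
      (fun _ _ => rfl) g1).trans g2)⟩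
    have h0 := hl.1
    simp only [List.mem_append, List.mem_cons, not_or] at h0
    have a1 := copy_run (w := .loop r b) (s := .inl false) l1 (fun x hx => by
      have h1 : x ≠ 0 := fun e => h0.1 (e ▸ hx)
      have h2 : x ≠ r + 2 := fun e => hn (e ▸ hx)
      simp [qs, h1, h2]) ((r + 2) :: l2 ++ [0])
    have a2 : QStep (.loop r b) (some (.inl false), (r + 2) :: (l2 ++ [0] ++ l1))
      (some (.inl true), (l2 ++ [0] ++ l1) ++ [1]) := QStep.mk' (by simp [qs])
    have a3 := copy_run (w := .loop r b) (s := .inl true) l2 (fun x hx => by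
      have h1 : x ≠ 0 := fun e => h0.2.2 (e ▸ hx)
      simp [qs, h1]) (0 :: l1 ++ [1])
    have a4 : QStep (.loop r b) (some (.inl true), 0 :: (l1 ++ 1 :: l2))
      (some (.inr (entry b)), (l1 ++ 1 :: l2) ++ [0]) := QStep.mk' (by simp [qs])
    simp only [List.append_assoc, List.cons_append, List.nil_append, entry, jmp] at a1 a2 a3 a4 ⊢
    exact ((a1.tail a2).trans a3).tail a4

def Mid (v : ℕ → ℕ) (P : List ℕ → Prop) (l : List ℕ) : Prop :=
  ∃ l1 l2, l = l2 ++ 0 :: l1 ∧ Rep (l1 ++ l2) v ∧ P l1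

def Back (w : W) (v0 v1 : ℕ → ℕ) : Prop := ∀ v', Ev w v1 v' → Ev w v0 v'

def Inv : (w : W) → (ℕ → ℕ) → St w → List ℕ → Prop
  | .inc _, v, _, l => Mid v (fun _ => True) l
  | .skip, v, _, l => Mid v (fun _ => True) l
  | .seq a _, v, .inl s, l => Inv a v s l
  | .seq a b, v, .inr s, l => ∃ v1, Ev a v v1 ∧ Inv b v1 s l
  | .loop r b, v, .inl false, l => ∃ v1, Back (.loop r b) v v1 ∧ Mid v1 (fun l1 => r + 2 ∉ l1) l
  | .loop r b, v, .inl true, l => ∃ v1 n, Back (.loop r b) v v1 ∧ v1 r = n + 1 ∧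
      Mid (update v1 r n) (fun _ => True) l
  | .loop r b, v, .inr s, l => ∃ v1 n, Back (.loop r b) v v1 ∧ v1 r = n + 1 ∧
      Inv b (update v1 r n) s l

def Inv' (w : W) (v : ℕ → ℕ) : Option (St w) → List ℕ → Prop
  | none, l => ∃ v' l', Ev w v v' ∧ Rep l' v' ∧ l = l' ++ [0]
  | some s, l => Inv w v s l

theorem inv_entry : ∀ (w : W) (v : ℕ → ℕ) (l : List ℕ), Rep l v → Inv w v (entry w) (l ++ [0])
  | .inc _, v, l, h => ⟨[], l, rfl, h, trivial⟩
  | .skip, v, l, h => ⟨[], l, rfl, h, trivial⟩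
  | .seq a _, v, l, h => inv_entry a v l h
  | .loop _ _, v, l, h => ⟨v, fun _ h => h, [], l, rfl, h, by simp⟩

theorem Mid.zero {v : ℕ → ℕ} {P : List ℕ → Prop} {t : List ℕ} (h : Mid v P (0 :: t)) :
    Rep t v ∧ P t := by
  obtain ⟨l1, l2, e, h1, h2⟩ := h
  cases l2 with
  | nil => simp at e; subst e; exact ⟨by simpa using h1, h2⟩
  | cons y l2 => simp at e; exact absurd (by simp [← e.1]) h1.1

theorem Mid.pos {v : ℕ → ℕ} {P : List ℕ → Prop} {x : ℕ} {t : List ℕ} (h : Mid v P (x :: t))
    (hx : x ≠ 0) : ∃ l1 l2, t = l2 ++ 0 :: l1 ∧ Rep (l1 ++ x :: l2) v ∧ P l1 := by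
  obtain ⟨l1, l2, e, h1, h2⟩ := h
  cases l2 with
  | nil => simp at e; exact absurd e.1 hx
  | cons y l2 => simp at e; obtain ⟨rfl, rfl⟩ := e; exact ⟨l1, l2, rfl, h1, h2⟩

theorem Mid.copy {v : ℕ → ℕ} {P : List ℕ → Prop} {x : ℕ} {t : List ℕ} (h : Mid v P (x :: t))
    (hx : x ≠ 0) (hP : ∀ l, P l → P (l ++ [x])) : Mid v P (t ++ [x]) := by
  obtain ⟨l1, l2, rfl, h1, h2⟩ := h.pos hx
  exact ⟨l1 ++ [x], l2, by simp, by simpa using h1, hP _ h2⟩

theorem inv_step : ∀ (w : W) (v : ℕ → ℕ) (s : St w) (x : ℕ) (t : List ℕ), Inv w v s (x :: t) →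
    Inv' w v (qs w s x).1 (t ++ (qs w s x).2)
  | .inc r, v, s, x, t, h => by
    by_cases hx : x = 0
    · subst hx
      exact ⟨_, _, Ev.inc r v, (Mid.zero h).1.inc r, by simp [qs]⟩
    · simp only [qs, if_neg hx]
      exact Mid.copy h hx (by simp)
  | .skip, v, s, x, t, h => by
    by_cases hx : x = 0
    · subst hx
      exact ⟨_, _, Ev.skip v, (Mid.zero h).1, by simp [qs]⟩
    · simp only [qs, if_neg hx]
      exact Mid.copy h hx (by simp)
  | .seq a b, v, .inl s, x, t, h => by
    have := inv_step a v s x t h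
    simp only [qs]
    generalize (qs a s x).1 = q at this
    cases q with
    | none =>
      obtain ⟨v', l', h1, h2, e⟩ := this
      rw [e]
      exact ⟨v', h1, inv_entry b v' l' h2⟩
    | some s' => exact this
  | .seq a b, v, .inr s, x, t, h => by
    obtain ⟨v1, h1, h⟩ := h
    have := inv_step b v1 s x t h
    simp only [qs]
    generalize (qs b s x).1 = q at this
    cases q with
    | none =>
      obtain ⟨v', l', h2, h3, e⟩ := this
      exact ⟨v', l', Ev.seq h1 h2, h3, e⟩
    | some s' => exact ⟨v1, h1, this⟩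
  | .loop r b, v, .inl false, x, t, h => by
    obtain ⟨v1, h1, h⟩ := h
    by_cases hx : x = 0
    · subst hx
      obtain ⟨a1, a2⟩ := Mid.zero h
      exact ⟨v1, t, h1 _ (Ev.l0 (by rw [← a1.2]; exact List.count_eq_zero.2 a2)), a1, by simp [qs]⟩
    · by_cases hr : x = r + 2
      · subst hr
        obtain ⟨l1, l2, rfl, a1, -⟩ := h.pos hx
        obtain ⟨n, b1, b2⟩ := a1.dec
        simp only [qs, if_neg hx, if_true]
        exact ⟨v1, n, h1, b1, l1 ++ [1], l2, by simp, by simpa using b2, trivial⟩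
      · simp only [qs, if_neg hx, if_neg hr]
        exact ⟨v1, h1, Mid.copy h hx (fun l hl => by simp [hl, Ne.symm hr])⟩
  | .loop r b, v, .inl true, x, t, h => by
    obtain ⟨v1, n, h1, h2, h⟩ := h
    by_cases hx : x = 0
    · subst hx
      exact ⟨v1, n, h1, h2, inv_entry b _ _ (Mid.zero h).1⟩
    · simp only [qs, if_neg hx]
      exact ⟨v1, n, h1, h2, Mid.copy h hx (by simp)⟩
  | .loop r b, v, .inr s, x, t, h => by
    obtain ⟨v1, n, h1, h2, h⟩ := h
    have := inv_step b _ s x t h
    simp only [qs]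
    generalize (qs b s x).1 = q at this
    cases q with
    | none =>
      obtain ⟨v', l', h3, h4, e⟩ := this
      rw [e]
      exact ⟨v', fun u hu => h1 _ (Ev.l1 h2 h3 hu), [], l', rfl, h4, by simp⟩
    | some s' => exact ⟨v1, n, h1, h2, this⟩

theorem halts_iff (w : W) (v : ℕ → ℕ) (l : List ℕ) (hl : Rep l v) :
    (∃ v', Ev w v v') ↔ ∃ l', ReflTransGen (QStep w) (some (entry w), l ++ [0]) (none, l') := by
  constructor
  · rintro ⟨v', h⟩
    obtain ⟨l', -, h⟩ := run_of_ev h l hl
    exact ⟨_, h⟩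
  · rintro ⟨l', h⟩
    have key : ∀ c, ReflTransGen (QStep w) (some (entry w), l ++ [0]) c → Inv' w v c.1 c.2 := by
      intro c hc
      induction hc with
      | refl => exact inv_entry w v l hl
      | tail _ hs ih =>
        obtain ⟨s, x, t, rfl, rfl⟩ := hs
        exact inv_step w v s x t ih
    obtain ⟨v', -, h, -⟩ := key _ h
    exact ⟨v', h⟩

theorem rep_init (x : ℕ) : Rep (List.replicate x 2) (init x) := by
  refine ⟨by simp [List.mem_replicate], fun r => ?_⟩
  by_cases hr : r = 0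
  · subst hr; simp [init]
  · simp [init, hr, List.count_replicate, Ne.symm hr]

end Pool.Agent.H38.CM
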