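import Pool.Agent.H38.CM.SubDefs

/-! Soundness and completeness of context-free derivations with respect to an interpretation
of the nonterminals by languages. -/

namespace Pool.Agent.H38.Sub

variable {S N : Type}

def I (L : N → List S → Prop) : List (Symbol S N) → List S → Prop
  | [], u => u = []
  | .terminal t :: l, u => ∃ u', u = t :: u' ∧ I L l u'
  | .nonterminal k :: l, u => ∃ u1 u2, u = u1 ++ u2 ∧ L k u1 ∧ I L l u2

theorem I_append (L : N → List S → Prop) (l1 l2 : List (Symbol S N)) (u : List S) :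
    I L (l1 ++ l2) u ↔ ∃ u1 u2, u = u1 ++ u2 ∧ I L l1 u1 ∧ I L l2 u2 := by
  induction l1 generalizing u with
  | nil => simp [I]
  | cons a l ih =>
    cases a with
    | terminal t =>
      simp only [List.cons_append, I, ih]
      constructor
      · rintro ⟨_, rfl, u1, u2, rfl, h1, h2⟩
        exact ⟨t :: u1, u2, rfl, ⟨u1, rfl, h1⟩, h2⟩
      · rintro ⟨_, u2, rfl, ⟨u1, rfl, h1⟩, h2⟩
        exact ⟨u1 ++ u2, rfl, u1, u2, rfl, h1, h2⟩
    | nonterminal k =>
      simp only [List.cons_append, I, ih]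
      constructor
      · rintro ⟨w, _, rfl, hw, u1, u2, rfl, h1, h2⟩
        exact ⟨w ++ u1, u2, by simp, ⟨w, u1, rfl, hw, h1⟩, h2⟩
      · rintro ⟨_, u2, rfl, ⟨w, u1, rfl, hw, h1⟩, h2⟩
        exact ⟨w, u1 ++ u2, by simp, hw, u1, u2, rfl, h1, h2⟩

theorem I_term (L : N → List S → Prop) (w u : List S) :
    I L (w.map Symbol.terminal) u ↔ u = w := by
  induction w generalizing u with
  | nil => simp [I]
  | cons a w ih => simp [I, ih]

theorem sound (g : ContextFreeGrammar S) (L : g.NT → List S → Prop)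
    (h : ∀ r ∈ g.rules, ∀ u, I L r.output u → L r.input u) :
    ∀ w ∈ g.language, L g.initial w := by
  have key : ∀ l l', g.Derives l l' → ∀ u, I L l' u → I L l u := by
    intro l l' hd
    induction hd with
    | refl => exact fun _ h => h
    | tail _ hp ih =>
      intro u hu
      apply ih
      obtain ⟨r, hr, hrw⟩ := hp
      obtain ⟨p, q, rfl, rfl⟩ := hrw.exists_parts
      obtain ⟨_, u3, rfl, h12, h3⟩ := (I_append _ _ _ _).1 hu
      obtain ⟨u1, u2, rfl, h1, h2⟩ := (I_append _ _ _ _).1 h12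
      refine (I_append _ _ _ _).2 ⟨_, u3, rfl, (I_append _ _ _ _).2 ⟨u1, u2, rfl, h1, ?_⟩, h3⟩
      exact ⟨u2, [], by simp, h r hr u2 h2, rfl⟩
  intro w hw
  obtain ⟨u1, u2, rfl, h1, h2⟩ := key _ _ hw w ((I_term _ _ _).2 rfl)
  cases h2
  simpa using h1

def D (g : ContextFreeGrammar S) (k : g.NT) (u : List S) : Prop :=
  g.Derives [Symbol.nonterminal k] (u.map Symbol.terminal)

theorem complete (g : ContextFreeGrammar S) :
    ∀ r ∈ g.rules, ∀ u, I (D g) r.output u → D g r.input u := by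
  have key : ∀ l u, I (D g) l u → g.Derives l (u.map Symbol.terminal) := by
    intro l
    induction l with
    | nil => rintro _ rfl; exact Relation.ReflTransGen.refl
    | cons a l ih =>
      cases a with
      | terminal t =>
        rintro _ ⟨u, rfl, hu⟩
        exact (ih u hu).append_left [Symbol.terminal t]
      | nonterminal k =>
        rintro _ ⟨u1, u2, rfl, h1, h2⟩
        rw [List.map_append]
        exact (ContextFreeGrammar.Derives.append_right h1 l).trans ((ih u2 h2).append_left _)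
  intro r hr u hu
  exact Relation.ReflTransGen.head ⟨r, hr, ContextFreeRule.Rewrites.input_output⟩ (key _ _ hu)

def J (L : ℕ → List S → Prop) (l : List (S ⊕ ℕ)) (u : List S) : Prop := I L (l.map sym) u

def T (w : List S) : List (S ⊕ ℕ) := w.map Sum.inl

theorem J_nil (L : ℕ → List S → Prop) (u : List S) : J L [] u ↔ u = [] := Iff.rfl

theorem J_inl (L : ℕ → List S → Prop) (t : S) (l : List (S ⊕ ℕ)) (u : List S) :
    J L (.inl t :: l) u ↔ ∃ u', u = t :: u' ∧ J L l u' := Iff.rfl

theorem J_inr (L : ℕ → List S → Prop) (k : ℕ) (l : List (S ⊕ ℕ)) (u : List S) :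
    J L (.inr k :: l) u ↔ ∃ u1 u2, u = u1 ++ u2 ∧ L k u1 ∧ J L l u2 := Iff.rfl

theorem J_T (L : ℕ → List S → Prop) (w : List S) (l : List (S ⊕ ℕ)) (u : List S) :
    J L (T w ++ l) u ↔ ∃ u', u = w ++ u' ∧ J L l u' := by
  induction w generalizing u with
  | nil => simp [T]
  | cons a w ih =>
    rw [show T (a :: w) ++ l = .inl a :: (T w ++ l) from rfl, J_inl]
    simp [ih]

theorem cfg_sound [DecidableEq S] (G : List (ℕ × List (S ⊕ ℕ))) (L : ℕ → List S → Prop)
    (h : ∀ r ∈ G, ∀ u, J L r.2 u → L r.1 u) : ∀ w ∈ (cfg G).language, L 0 w := by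
  apply sound (cfg G) L
  intro r hr u hu
  obtain ⟨r', hr', rfl⟩ := List.mem_map.1 ((List.mem_toFinset (α := ContextFreeRule S ℕ)).1 hr)
  exact h r' hr' u hu

theorem cfg_complete [DecidableEq S] (G : List (ℕ × List (S ⊕ ℕ))) {k : ℕ} {l : List (S ⊕ ℕ)}
    (h : (k, l) ∈ G) {u : List S} (hu : J (D (cfg G)) l u) : D (cfg G) k u := by
  refine complete (cfg G) ⟨k, l.map sym⟩ ?_ u hu
  exact (List.mem_toFinset (α := ContextFreeRule S ℕ)).2 (List.mem_map.2 ⟨(k, l), h, rfl⟩)

end Pool.Agent.H38.Sub
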