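import Pool.Agent.H38.CM.Cfg
import Pool.Agent.H38.CM.W

/-! A substitution whose context-free model checking problem is undecidable.
Letters: 0 = a, 1 = b, 2 = c, 3 = r, 4 = z, 5 = s. -/

namespace Pool.Agent.H38.Sub

open Pool.Agent.H38.CM Function

abbrev S6 := Fin 6

def tau : S6 → List S6 := ![[0], [0, 1, 0], [2], [1, 2, 3], [4], [4, 5, 3]]

def A (n : ℕ) : List S6 := List.replicate n 0

theorem A_succ (n : ℕ) : A (n + 1) = 0 :: A n := rfl
theorem A_zero : A 0 = [] := rfl
theorem A_add (m n : ℕ) : A (m + n) = A m ++ A n := List.replicate_add _ _ _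
theorem A_comm (n : ℕ) (l : List S6) : A n ++ 0 :: l = 0 :: (A n ++ l) := by
  induction n with
  | zero => rfl
  | succ n ih => simp [A_succ, ih]

theorem A_mid (k m : ℕ) (w : List S6) :
    A k ++ (A m ++ 2 :: (w ++ 2 :: A m) ++ (A k ++ [1])) =
      A (k + m) ++ 2 :: (w ++ 2 :: (A (k + m) ++ [1])) := by
  have h : A (k + m) ++ [1] = A m ++ (A k ++ [1]) := by rw [add_comm, A_add]; simp
  rw [h, A_add]; simp

theorem app_append (u v : List S6) : app tau (u ++ v) = app tau u ++ app tau v := by simp [app]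
theorem app_cons (a : S6) (v : List S6) : app tau (a :: v) = tau a ++ app tau v := by simp [app]
theorem app_nil : app tau [] = [] := rfl
theorem app_A (n : ℕ) : app tau (A n) = A n := by
  induction n with
  | zero => rfl
  | succ n ih => rw [A_succ, app_cons, ih]; rfl
theorem t1 : tau 1 = [0, 1, 0] := rfl
theorem t2 : tau 2 = [2] := rfl
theorem t3 : tau 3 = [1, 2, 3] := rfl
theorem t4 : tau 4 = [4] := rfl
theorem t5 : tau 5 = [4, 5, 3] := rfl

/-- The block `a^n b a^n c`. -/
def Bl (n : ℕ) : List S6 := A n ++ 1 :: (A n ++ [2])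

theorem app_Bl (n : ℕ) : app tau (Bl n) = Bl (n + 1) := by
  simp [Bl, app_append, app_cons, app_A, t1, t2, app_nil, A_succ, A_comm]

inductive Good : List S6 → Prop
  | nil : Good []
  | blk (n : ℕ) {w : List S6} : Good w → Good (Bl n ++ w)
  | oth (x : S6) {w : List S6} : (x = 3 ∨ x = 4 ∨ x = 5) → Good w → Good (x :: w)

theorem Good.app {w : List S6} (h : Good w) : Good (app tau w) := by
  induction h with
  | nil => exact Good.nil
  | blk n _ ih => rw [app_append, app_Bl]; exact Good.blk _ ih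
  | oth x hx _ ih =>
    rw [app_cons]
    rcases hx with rfl | rfl | rfl
    · exact Good.blk 0 (Good.oth 3 (by simp) ih)
    · exact Good.oth 4 (by simp) ih
    · exact Good.oth 4 (by simp) (Good.oth 5 (by simp) (Good.oth 3 (by simp) ih))

theorem A_inj {m n : ℕ} {x y : S6} {l l' : List S6} (hx : x ≠ 0) (hy : y ≠ 0)
    (h : A m ++ x :: l = A n ++ y :: l') : m = n ∧ x = y ∧ l = l' := by
  induction m generalizing n with
  | zero =>
    cases n with
    | zero => simpa [A_zero] using h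
    | succ n => simp [A_zero, A_succ] at h; exact absurd h.1 hx
  | succ m ih =>
    cases n with
    | zero => simp [A_zero, A_succ] at h; exact absurd h.1.symm hy
    | succ n =>
      simp only [A_succ, List.cons_append, List.cons.injEq, true_and] at h
      obtain ⟨a, b⟩ := ih h
      exact ⟨by omega, b⟩

theorem Good.head {m m' : ℕ} {y w : List S6} (h : Good w) (e : w = A m ++ 1 :: (A m' ++ 2 :: y)) :
    m = m' := by
  cases h with
  | nil => simp at e
  | blk n _ =>
    simp only [Bl, List.append_assoc, List.cons_append, List.nil_append] at e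
    obtain ⟨rfl, -, e2⟩ := A_inj (by decide) (by decide) e
    exact (A_inj (by decide) (by decide) e2).1
  | oth x hx _ =>
    cases m with
    | zero =>
      simp only [A_zero, List.nil_append, List.cons.injEq] at e
      rcases hx with rfl | rfl | rfl <;> exact absurd e.1 (by decide)
    | succ m =>
      simp only [A_succ, List.cons_append, List.cons.injEq] at e
      rcases hx with rfl | rfl | rfl <;> exact absurd e.1 (by decide)

theorem split2 {p w x y : List S6} (hp : (2 : S6) ∉ p) (e : p ++ 2 :: w = x ++ 2 :: y) :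
    y = w ∨ ∃ x', w = x' ++ 2 :: y := by
  induction p generalizing x with
  | nil =>
    cases x with
    | nil => left; simpa using e.symm
    | cons a x => right; simp at e; exact ⟨x, e.2⟩
  | cons a p ih =>
    cases x with
    | nil => simp at e; simp [e.1] at hp
    | cons b x =>
      simp only [List.cons_append, List.cons.injEq] at e
      exact ih (fun h => hp (List.mem_cons_of_mem _ h)) e.2

theorem Good.tail {w : List S6} (h : Good w) : ∀ {x y : List S6}, w = x ++ 2 :: y → Good y := by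
  induction h with
  | nil => intro x y e; simp at e
  | @blk n w hw ih =>
    intro x y e
    have e' : (A n ++ 1 :: A n) ++ 2 :: w = x ++ 2 :: y := by simpa [Bl] using e
    rcases split2 (by simp [A, List.mem_replicate]) e' with rfl | ⟨x', e2⟩
    · exact hw
    · exact ih e2
  | oth a ha _ ih =>
    intro x y e
    cases x with
    | nil =>
      simp only [List.nil_append, List.cons.injEq] at e
      rcases ha with rfl | rfl | rfl <;> exact absurd e.1 (by decide)
    | cons b x =>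
      simp only [List.cons_append, List.cons.injEq] at e
      exact ih e.2

def Fac (w : List S6) : Prop := ∃ g, Good g ∧ w <:+: g

theorem fac_iter (k : ℕ) (a : S6) : Fac ((app tau)^[k] [a]) := by
  induction k with
  | zero =>
    refine ⟨Bl 1 ++ [3, 4, 5], Good.blk 1 (Good.oth _ (by simp) (Good.oth _ (by simp)
      (Good.oth _ (by simp) Good.nil))), ?_⟩
    revert a; decide
  | succ k ih =>
    obtain ⟨g, hg, p, q, rfl⟩ := ih
    rw [iterate_succ_apply']
    exact ⟨_, hg.app, app tau p, app tau q, by simp [app_append]⟩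

theorem fac_of_B {w : List S6} (h : w ∈ B (X tau)) : Fac w := by
  obtain ⟨x, hx, i, e⟩ := h
  obtain ⟨k, a, hk⟩ := hx i w.length
  obtain ⟨g, hg, h2⟩ := fac_iter k a
  exact ⟨g, hg, e ▸ hk.trans h2⟩

/-! ### The point `... z z z s R_0 R_1 ...` -/

def R : ℕ → List S6
  | 0 => [3]
  | k + 1 => Bl k ++ R k

def Y : ℕ → List S6
  | 0 => [5]
  | k + 1 => Y k ++ R k

theorem app_R (k : ℕ) : app tau (R k) = R (k + 1) := by
  induction k with
  | zero => rfl
  | succ k ih => rw [R, app_append, app_Bl, ih]; rfl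

theorem app_Y (k : ℕ) : app tau (Y k) = 4 :: Y (k + 1) := by
  induction k with
  | zero => rfl
  | succ k ih => rw [Y, app_append, ih, app_R]; rfl

theorem app_Z (k : ℕ) : app tau (List.replicate k 4) = List.replicate k 4 := by
  induction k with
  | zero => rfl
  | succ n ih => rw [List.replicate_succ, app_cons, ih]; rfl

theorem iter5 (k : ℕ) : (app tau)^[k] [5] = List.replicate k 4 ++ Y k := by
  induction k with
  | zero => rfl
  | succ k ih =>
    rw [iterate_succ_apply', ih, app_append, app_Z, app_Y, List.replicate_succ']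
    simp

theorem R_len (k : ℕ) : 1 ≤ (R k).length := by
  induction k with
  | zero => simp [R]
  | succ k ih => simp [R]; omega

theorem Y_len (k : ℕ) : k + 1 ≤ (Y k).length := by
  induction k with
  | zero => simp [Y]
  | succ k ih => have := R_len k; simp [Y]; omega

theorem Y_mono {k l : ℕ} (h : k ≤ l) : Y k <+: Y l := by
  induction h with
  | refl => exact List.prefix_rfl
  | step _ ih => exact ih.trans (List.prefix_append _ _)

def pt (i : ℤ) : S6 := if i < 0 then 4 else (Y i.toNat).getD i.toNat 0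

theorem pt_nat (K j : ℕ) (hj : j < (Y K).length) : pt j = (Y K)[j] := by
  have h1 := Y_len j
  rw [pt, if_neg (by omega), Int.toNat_natCast, List.getD_eq_getElem _ _ (by omega)]
  rcases le_total j K with h | h
  · exact (Y_mono h).getElem _
  · exact ((Y_mono h).getElem _).symm

theorem win_len (x : ℤ → S6) (i : ℤ) (n : ℕ) : (win x i n).length = n := by simp [win]

theorem win_pt (K : ℕ) : win pt (-K) (K + (Y K).length) = List.replicate K 4 ++ Y K := by
  apply List.ext_getElem (by simp [win_len])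
  intro j h1 h2
  simp only [win, List.getElem_ofFn]
  by_cases hj : j < K
  · rw [List.getElem_append_left (by simpa using hj), pt, if_pos (by omega)]; simp
  · rw [List.getElem_append_right (by simpa using hj)]
    simp only [List.length_replicate]
    rw [← pt_nat K (j - K)]
    congr 1; omega

theorem win_infix (x : ℤ → S6) (i i' : ℤ) (n n' : ℕ) (h1 : i' ≤ i) (h2 : i + n ≤ i' + n') :
    win x i n <:+: win x i' n' := by
  have : win x i n = ((win x i' n').drop (i - i').toNat).take n := by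
    apply List.ext_getElem (by simp [win_len]; omega)
    intro j h1 h2
    simp only [win, List.getElem_ofFn, List.getElem_take, List.getElem_drop]
    congr 1; push_cast; omega
  rw [this]
  exact (List.take_prefix _ _).isInfix.trans (List.drop_suffix _ _).isInfix

theorem pt_mem : pt ∈ X tau := by
  intro i n
  refine ⟨i.natAbs + n, 5, ?_⟩
  rw [iter5, ← win_pt]
  have := Y_len (i.natAbs + n)
  apply win_infix <;> omega

def Pre (u : List S6) : Prop := ∃ K, u <+: Y K

theorem B_of_pre {x u y : List S6} (h : Pre (x ++ u ++ y)) : u ∈ B (X tau) := by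
  obtain ⟨K, t, ht⟩ := h
  refine ⟨pt, pt_mem, x.length, ?_⟩
  apply List.ext_getElem (by simp [win_len])
  intro j h1 h2
  have hl : x.length + j < (Y K).length := by rw [← ht]; simp; omega
  simp only [win, List.getElem_ofFn]
  rw [← Nat.cast_add, pt_nat K _ hl]
  simp only [← ht, List.append_assoc]
  rw [List.getElem_append_right (by omega), List.getElem_append_left (by omega)]
  simp

theorem R_infix (m j : ℕ) : ∃ p q, R (m + 2 + j) = p ++ 2 :: (Bl m ++ q) := by
  induction j with
  | zero => exact ⟨A (m + 1) ++ 1 :: A (m + 1), R m, by simp [R, Bl]⟩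
  | succ j ih =>
    obtain ⟨p, q, e⟩ := ih
    exact ⟨Bl (m + 2 + j) ++ p, q, by rw [← add_assoc, R, e]; simp⟩

theorem Pre.ext {u : List S6} (h : Pre u) (m : ℕ) : ∃ w, Pre (u ++ w ++ 2 :: Bl m) := by
  obtain ⟨K, h⟩ := h
  obtain ⟨t, ht⟩ := h.trans (Y_mono (show K ≤ m + 2 + K by omega))
  obtain ⟨p, q, e⟩ := R_infix m K
  exact ⟨t ++ p, m + 2 + K + 1, q, by rw [Y, e, ← ht]; simp⟩

/-! ### Goedel numbering -/

noncomputable def pr (r : ℕ) : ℕ := Nat.nth Nat.Prime r

theorem pr_prime (r : ℕ) : (pr r).Prime := Nat.prime_nth_prime r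
theorem pr_inj {r s : ℕ} (h : pr r = pr s) : r = s :=
  Nat.nth_injective Nat.infinite_setOfPred_prime h

def Rel (n : ℕ) (v : ℕ → ℕ) : Prop := n ≠ 0 ∧ ∀ r, n.factorization (pr r) = v r

theorem fac_mul (r s n : ℕ) (hn : n ≠ 0) :
    (pr r * n).factorization (pr s) = n.factorization (pr s) + if s = r then 1 else 0 := by
  rw [Nat.factorization_mul (pr_prime r).ne_zero hn, (pr_prime r).factorization]
  by_cases h : s = r
  · subst h; simp [add_comm]
  · have : pr r ≠ pr s := fun e => h (pr_inj e).symm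
    simp [h, Finsupp.single_apply, this]

theorem Rel.inc {n : ℕ} {v : ℕ → ℕ} (h : Rel n v) (r : ℕ) :
    Rel (pr r * n) (update v r (v r + 1)) := by
  refine ⟨mul_ne_zero (pr_prime r).ne_zero h.1, fun s => ?_⟩
  rw [fac_mul _ _ _ h.1, h.2]
  by_cases hs : s = r
  · subst hs; simp
  · simp [hs]

theorem Rel.dec {n : ℕ} {v : ℕ → ℕ} {r : ℕ} (h : Rel (pr r * n) v) :
    ∃ k, v r = k + 1 ∧ Rel n (update v r k) := by
  have hn : n ≠ 0 := fun e => h.1 (by simp [e])
  refine ⟨n.factorization (pr r), ?_, hn, fun s => ?_⟩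
  · rw [← h.2, fac_mul _ _ _ hn]; simp
  · by_cases hs : s = r
    · subst hs; simp
    · rw [update_of_ne hs, ← h.2, fac_mul _ _ _ hn]; simp [hs]

theorem Rel.zero_iff {n : ℕ} {v : ℕ → ℕ} (h : Rel n v) (r : ℕ) : v r = 0 ↔ ¬ pr r ∣ n := by
  rw [← h.2, Nat.factorization_eq_zero_iff]
  simp [pr_prime r, h.1]

theorem rel_init (x : ℕ) : Rel (2 ^ x) (init x) := by
  have h0 : pr 0 = 2 := Nat.nth_prime_zero_eq_two
  refine ⟨by positivity, fun r => ?_⟩
  rw [Nat.prime_two.factorization_pow]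
  by_cases hr : r = 0
  · subst hr; simp [init, h0]
  · have : 2 ≠ pr r := fun e => hr (pr_inj (h0.trans e)).symm
    simp [init, hr, Finsupp.single_apply, this]

/-! ### The grammar -/

def encW : W → ℕ
  | .inc r => Nat.pair 0 r
  | .skip => Nat.pair 1 0
  | .seq a b => Nat.pair 2 (Nat.pair (encW a) (encW b))
  | .loop r b => Nat.pair 3 (Nat.pair r (encW b))

theorem encW_inj : ∀ a b : W, encW a = encW b → a = b := by
  intro a
  induction a with
  | inc r => intro b h; cases b <;> simp_all [encW, Nat.pair_eq_pair]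
  | skip => intro b h; cases b <;> simp_all [encW, Nat.pair_eq_pair]
  | seq a a' ih ih' =>
    intro b h
    cases b <;> simp only [encW, Nat.pair_eq_pair] at h <;> try omega
    rw [ih _ h.2.1, ih' _ h.2.2]
  | loop r a ih =>
    intro b h
    cases b <;> simp only [encW, Nat.pair_eq_pair] at h <;> try omega
    rw [h.2.1, ih _ h.2.2]

def nF (i j : ℕ) : ℕ := 2 * Nat.pair i j + 2
def nW (w : W) : ℕ := 2 * encW w + 3

abbrev Rule := ℕ × List (S6 ⊕ ℕ)

def rulesA : List Rule :=
  (1, []) :: (List.finRange 6).map fun t => (1, [.inl t, .inr 1])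

def rulesF (i j : ℕ) : List Rule :=
  [(nF i j, T (A i) ++ .inr (nF i j) :: (T (A j) ++ [])), (nF i j, [.inl 2, .inr 1, .inl 2])]

noncomputable def rulesW : W → List Rule
  | .inc r => (nW (.inc r), [.inr (nF 1 (pr r)), .inl 1]) :: rulesF 1 (pr r)
  | .skip => [(nW .skip, [])]
  | .seq a b => (nW (.seq a b), [.inr (nW a), .inr (nW b)]) :: (rulesW a ++ rulesW b)
  | .loop r b =>
    (nW (.loop r b), [.inr (nF (pr r) 1), .inl 1, .inr (nW b), .inr (nW (.loop r b))]) ::
      (((List.range (pr r - 1)).map fun q => (nW (.loop r b),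
          T (A (q + 1)) ++ .inr (nF (pr r) (pr r)) :: (T (A (q + 1)) ++ [.inl 1]))) ++
        (rulesF (pr r) 1 ++ (rulesF (pr r) (pr r) ++ rulesW b)))

noncomputable def gram (P : W) (x : ℕ) : List Rule :=
  (0, .inl 2 :: (T (A (2 ^ x)) ++ [.inl 1, .inr (nW P)])) :: (rulesA ++ rulesW P)

def Ctx (p : List S6) (n : ℕ) : Prop := ∃ x, p = x ++ 2 :: (A n ++ [1])

def LF (i j : ℕ) (u : List S6) : Prop := ∃ m w, u = A (i * m) ++ 2 :: (w ++ 2 :: A (j * m))

def LW (w : W) (u : List S6) : Prop :=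
  ∀ p y n v, Ctx p n → Good (p ++ u ++ y) → Rel n v →
    ∃ v' n', Ev w v v' ∧ Rel n' v' ∧ Ctx (p ++ u) n'

def L (P : W) (x : ℕ) (k : ℕ) (u : List S6) : Prop :=
  (k = 0 → Fac u → ∃ v, Ev P (init x) v) ∧ (∀ i j, k = nF i j → LF i j u) ∧
    ∀ w, k = nW w → LW w u

theorem L_F (P x i j u) : L P x (nF i j) u ↔ LF i j u := by
  refine ⟨fun h => h.2.1 _ _ rfl, fun h => ⟨by simp [nF], fun i' j' e => ?_, fun w e => ?_⟩⟩
  · have : Nat.pair i j = Nat.pair i' j' := by simp only [nF] at e; omega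
    obtain ⟨rfl, rfl⟩ := Nat.pair_eq_pair.1 this
    exact h
  · simp only [nF, nW] at e; omega

theorem L_W (P x w u) : L P x (nW w) u ↔ LW w u := by
  refine ⟨fun h => h.2.2 _ rfl, fun h => ⟨by simp [nW], fun i' j' e => ?_, fun w' e => ?_⟩⟩
  · simp only [nF, nW] at e; omega
  · have : encW w = encW w' := by simp only [nW] at e; omega
    cases encW_inj _ _ this
    exact h

theorem L_1 (P x u) : L P x 1 u :=
  ⟨by simp, fun i j e => by simp only [nF] at e; omega, fun w e => by simp only [nW] at e; omega⟩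

theorem step {p w y : List S6} {n m m' : ℕ} (hc : Ctx p n)
    (hg : Good (p ++ (A m ++ 2 :: (w ++ 2 :: (A m' ++ [1]))) ++ y)) :
    n = m ∧ Ctx (p ++ (A m ++ 2 :: (w ++ 2 :: (A m' ++ [1])))) m' := by
  obtain ⟨x, rfl⟩ := hc
  refine ⟨?_, x ++ 2 :: (A n ++ 1 :: (A m ++ 2 :: w)), by simp⟩
  exact (hg.tail (x := x) (y := A n ++ 1 :: (A m ++ 2 :: (w ++ 2 :: (A m' ++ 1 :: y))))
    (by simp)).head rfl

theorem valid_F (P x i j) : ∀ r ∈ rulesF i j, ∀ u, J (L P x) r.2 u → L P x r.1 u := by
  intro r hr u hu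
  simp only [rulesF, List.mem_cons, List.not_mem_nil, or_false] at hr
  rcases hr with rfl | rfl
  · simp only [J_T, J_inr, J_nil, L_F] at hu ⊢
    obtain ⟨_, rfl, _, _, rfl, ⟨m, w, rfl⟩, _, rfl, rfl⟩ := hu
    exact ⟨m + 1, w, by simp [mul_add, add_comm (i * m), A_add]⟩
  · simp only [J_inl, J_inr, J_nil, L_F] at hu ⊢
    obtain ⟨_, rfl, w, _, rfl, -, _, rfl, rfl⟩ := hu
    exact ⟨0, w, by simp [A_zero]⟩

theorem valid_W (P x) (w : W) : ∀ r ∈ rulesW w, ∀ u, J (L P x) r.2 u → L P x r.1 u := by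
  induction w with
  | inc r =>
    intro q hq u hu
    rcases List.mem_cons.1 hq with rfl | hq
    · simp only [J_inl, J_inr, J_nil, L_F, L_W] at hu ⊢
      obtain ⟨_, _, rfl, ⟨m, w, rfl⟩, _, rfl, rfl⟩ := hu
      intro p y n v hc hg hr
      simp only [one_mul, List.append_assoc, List.cons_append] at hg ⊢
      obtain ⟨rfl, h2⟩ := step (w := w) (y := y) (m := m) (m' := pr r * m) hc (by simpa using hg)
      exact ⟨_, _, Ev.inc _ _, hr.inc r, h2⟩
    · exact valid_F _ _ _ _ q hq u hu
  | skip =>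
    intro q hq u hu
    obtain rfl := List.mem_singleton.1 hq
    simp only [J_nil, L_W] at hu ⊢
    subst hu
    intro p y n v hc hg hr
    exact ⟨v, n, Ev.skip _, hr, by simpa using hc⟩
  | seq a b iha ihb =>
    intro q hq u hu
    rcases List.mem_cons.1 hq with rfl | hq
    · simp only [J_inr, J_nil, L_W] at hu ⊢
      obtain ⟨u1, _, rfl, h1, u2, _, rfl, h2, rfl⟩ := hu
      intro p y n v hc hg hr
      obtain ⟨v1, n1, e1, r1, c1⟩ := h1 p (u2 ++ y) n v hc (by simpa using hg) hr
      obtain ⟨v2, n2, e2, r2, c2⟩ := h2 (p ++ u1) y n1 v1 c1 (by simpa using hg) r1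
      exact ⟨v2, n2, Ev.seq e1 e2, r2, by simpa using c2⟩
    · rcases List.mem_append.1 hq with hq | hq
      · exact iha q hq u hu
      · exact ihb q hq u hu
  | loop r b ih =>
    intro q hq u hu
    simp only [rulesW, List.mem_cons, List.mem_append, List.mem_map, List.mem_range] at hq
    rcases hq with rfl | ⟨k, hk, rfl⟩ | hq | hq | hq
    · simp only [J_inl, J_inr, J_nil, L_F, L_W] at hu ⊢
      obtain ⟨_, _, rfl, ⟨m, w, rfl⟩, _, rfl, u1, _, rfl, h1, u2, _, rfl, h2, rfl⟩ := hu
      intro p y n v hc hg hr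
      obtain ⟨rfl, c0⟩ := step (w := w) (y := u1 ++ (u2 ++ y)) (m := pr r * m) (m' := m) hc
        (by simpa using hg)
      obtain ⟨k, hk, r0⟩ := hr.dec
      obtain ⟨v1, n1, e1, r1, c1⟩ := h1 _ (u2 ++ y) _ _ c0 (by simpa using hg) r0
      obtain ⟨v2, n2, e2, r2, c2⟩ := h2 _ y n1 v1 c1 (by simpa using hg) r1
      exact ⟨v2, n2, Ev.l1 hk e1 e2, r2, by simpa using c2⟩
    · simp only [J_T, J_inl, J_inr, J_nil, L_F, L_W] at hu ⊢
      obtain ⟨_, rfl, _, _, rfl, ⟨m, w, rfl⟩, _, rfl, _, rfl, rfl⟩ := hu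
      intro p y n v hc hg hr
      have e : A (k + 1) ++ (A (pr r * m) ++ 2 :: (w ++ 2 :: A (pr r * m)) ++ (A (k + 1) ++ [1])) =
          A (k + 1 + pr r * m) ++ 2 :: (w ++ 2 :: (A (k + 1 + pr r * m) ++ [1])) := A_mid _ _ _
      rw [e] at hg ⊢
      obtain ⟨rfl, c0⟩ := step hc hg
      refine ⟨v, _, Ev.l0 ((hr.zero_iff r).2 fun hd => ?_), hr, c0⟩
      have := Nat.le_of_dvd (by omega) ((Nat.dvd_add_left (Dvd.intro _ rfl)).1 hd)
      omega
    · exact valid_F _ _ _ _ q hq u hu
    · exact valid_F _ _ _ _ q hq u hu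
    · exact ih q hq u hu

theorem gram_sound (P : W) (x : ℕ) {u : List S6} (hu : u ∈ (cfg (gram P x)).language)
    (hB : u ∈ B (X tau)) : ∃ v, Ev P (init x) v := by
  refine (cfg_sound _ (L P x) ?_ u hu).1 rfl (fac_of_B hB)
  intro r hr u hu
  rcases List.mem_cons.1 hr with rfl | hr
  · refine ⟨fun _ hf => ?_, fun i j e => by simp [nF] at e, fun w e => by simp [nW] at e⟩
    simp only [J_T, J_inl, J_inr, J_nil, L_W] at hu
    obtain ⟨_, rfl, _, rfl, _, rfl, u1, _, rfl, h1, rfl⟩ := hu
    obtain ⟨g, hg, p, q, rfl⟩ := hf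
    obtain ⟨v, -, e, -⟩ := h1 (p ++ 2 :: (A (2 ^ x) ++ [1])) q _ _ ⟨p, rfl⟩ (by simpa using hg)
      (rel_init x)
    exact ⟨v, e⟩
  · rcases List.mem_append.1 hr with hr | hr
    · have : r.1 = 1 := by
        simp only [rulesA, List.mem_cons, List.mem_map] at hr
        rcases hr with rfl | ⟨t, -, rfl⟩ <;> rfl
      rw [this]; exact L_1 _ _ _
    · exact valid_W P x P r hr u hu

section complete

variable {G : List Rule} (hA : rulesA ⊆ G)
include hA

theorem der_A (w : List S6) : D (cfg G) (1 : ℕ) w := by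
  induction w with
  | nil => exact cfg_complete G (hA (List.mem_cons_self)) rfl
  | cons t w ih =>
    refine cfg_complete G (l := [.inl t, .inr 1]) (hA ?_) ⟨w, rfl, w, [], by simp, ih, rfl⟩
    exact List.mem_cons_of_mem _ (List.mem_map.2 ⟨t, List.mem_finRange _, rfl⟩)

theorem der_F {i j : ℕ} (hF : rulesF i j ⊆ G) (m : ℕ) (w : List S6) :
    D (cfg G) (nF i j) (A (i * m) ++ 2 :: (w ++ 2 :: A (j * m))) := by
  induction m with
  | zero =>
    refine cfg_complete G (l := [.inl 2, .inr 1, .inl 2]) (hF (by simp [rulesF])) ?_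
    exact ⟨_, rfl, w, [2], by simp [A_zero], der_A hA w, [], rfl, rfl⟩
  | succ m ih =>
    refine cfg_complete G (hF List.mem_cons_self) ?_
    simp only [J_T, J_inr, J_nil]
    exact ⟨_, by simp [mul_add, add_comm (i * m), A_add], _, _, rfl, ih, _, rfl, rfl⟩

omit hA in
theorem next {x : List S6} {n : ℕ} (h : Pre (x ++ 2 :: Bl n)) (m : ℕ) :
    ∃ w x', Pre (x' ++ 2 :: Bl m) ∧
      x ++ 2 :: (A n ++ 1 :: (A n ++ 2 :: (w ++ 2 :: (A m ++ [1])))) = x' ++ 2 :: (A m ++ [1]) := by
  obtain ⟨w, hw⟩ := h.ext m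
  exact ⟨w, _, hw, by simp [Bl]⟩

theorem der_W {w : W} {v v' : ℕ → ℕ} (h : Ev w v v') : rulesW w ⊆ G → ∀ n x, Rel n v →
    Pre (x ++ 2 :: Bl n) → ∃ u n' x', D (cfg G) (nW w) u ∧ Rel n' v' ∧ Pre (x' ++ 2 :: Bl n') ∧
      x ++ 2 :: (A n ++ 1 :: u) = x' ++ 2 :: (A n' ++ [1]) := by
  induction h with
  | inc r v =>
    intro hG n x hr hp
    obtain ⟨w, x', h1, h2⟩ := next hp (pr r * n)
    refine ⟨_, _, x', cfg_complete G (hG List.mem_cons_self) ?_, hr.inc r, h1, h2⟩
    exact ⟨_, [1], by simp, der_F hA (fun a ha => hG (List.mem_cons_of_mem _ ha)) n w, [], rfl, rfl⟩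
  | skip v =>
    intro hG n x hr hp
    exact ⟨[], n, x, cfg_complete G (hG List.mem_cons_self) rfl, hr, hp, rfl⟩
  | seq _ _ ih1 ih2 =>
    intro hG n x hr hp
    obtain ⟨u1, n1, x1, d1, r1, p1, e1⟩ := ih1 (fun a ha => hG (by simp [rulesW, ha])) n x hr hp
    obtain ⟨u2, n2, x2, d2, r2, p2, e2⟩ := ih2 (fun a ha => hG (by simp [rulesW, ha])) n1 x1 r1 p1
    refine ⟨u1 ++ u2, n2, x2, cfg_complete G (hG List.mem_cons_self)
      ⟨u1, u2, rfl, d1, u2, [], by simp, d2, rfl⟩, r2, p2, ?_⟩
    rw [← e2]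
    simpa using congrArg (· ++ u2) e1
  | @l0 r b v h0 =>
    intro hG n x hr hp
    obtain ⟨w, x', h1, h2⟩ := next hp n
    have hd := (hr.zero_iff r).1 h0
    have hp2 := (pr_prime r).pos
    have hq : n % pr r ≠ 0 := fun e => hd (Nat.dvd_of_mod_eq_zero e)
    have hlt := Nat.mod_lt n hp2
    obtain ⟨q, hq'⟩ : ∃ q, n % pr r = q + 1 := ⟨n % pr r - 1, by omega⟩
    have hn : n = q + 1 + pr r * (n / pr r) := by rw [← hq']; exact (Nat.mod_add_div _ _).symm
    refine ⟨_, n, x', cfg_complete G (l := T (A (q + 1)) ++ .inr (nF (pr r) (pr r)) ::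
      (T (A (q + 1)) ++ [.inl 1])) (hG ?_) ?_, hr, h1, h2⟩
    · simp only [rulesW, List.mem_cons, List.mem_append, List.mem_map, List.mem_range]
      exact Or.inr (Or.inl ⟨q, by omega, rfl⟩)
    · simp only [J_T, J_inr, J_inl, J_nil]
      refine ⟨_, ?_, _, _, rfl, der_F hA (fun a ha => hG (by simp [rulesW, ha])) (n / pr r) w,
        _, rfl, _, rfl, rfl⟩
      rw [A_mid, ← hn]
  | @l1 r b v u' w' k h1 _ _ ih1 ih2 =>
    intro hG n x hr hp
    have hd : pr r ∣ n := by
      by_contra hd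
      have := (hr.zero_iff r).2 hd
      omega
    obtain ⟨m, rfl⟩ := hd
    obtain ⟨k', hk', r0⟩ := hr.dec
    obtain rfl : k' = k := by omega
    obtain ⟨w, x0, p0, e0⟩ := next hp m
    obtain ⟨u1, n1, x1, d1, r1, p1, e1⟩ := ih1 (fun a ha => hG (by simp [rulesW, ha])) m x0 r0 p0
    obtain ⟨u2, n2, x2, d2, r2, p2, e2⟩ := ih2 hG n1 x1 r1 p1
    refine ⟨_, n2, x2, cfg_complete G (hG List.mem_cons_self)
      ⟨_, _, rfl, der_F hA (fun a ha => hG (by simp [rulesW, ha])) m w, _, rfl,
        u1, u2, rfl, d1, u2, [], by simp, d2, rfl⟩, r2, p2, ?_⟩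
    rw [← e2]
    have e1' := congrArg (· ++ u2) e1
    have e0' := congrArg (· ++ (u1 ++ u2)) e0
    simp only [List.append_assoc, List.cons_append, List.nil_append, one_mul] at e0' e1' ⊢
    rw [e0', e1']

end complete

theorem gram_complete (P : W) (x : ℕ) (h : ∃ v, Ev P (init x) v) :
    ∃ u, u ∈ (cfg (gram P x)).language ∧ u ∈ B (X tau) := by
  obtain ⟨v, hv⟩ := h
  obtain ⟨w, hw⟩ := Pre.ext (u := []) ⟨0, List.nil_prefix⟩ (2 ^ x)
  obtain ⟨u, n', x', d, -, p, e⟩ := der_W (G := gram P x) (fun a ha => by simp [gram, ha]) hv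
    (fun a ha => by simp [gram, ha]) _ _ (rel_init x) hw
  refine ⟨2 :: (A (2 ^ x) ++ 1 :: u), ?_, B_of_pre (x := [] ++ w) (y := A n' ++ [2]) ?_⟩
  · refine cfg_complete (gram P x) List.mem_cons_self ?_
    simp only [J_T, J_inr, J_inl, J_nil]
    exact ⟨_, rfl, _, rfl, _, rfl, u, [], by simp, d, rfl⟩
  · rw [e]; simpa [Bl] using p

theorem gram_computable (P : W) : Computable (gram P) := by
  have h1 : Primrec fun n : ℕ => T (A n) := by
    have : Primrec fun n : ℕ => (List.range n).map fun _ => (Sum.inl 0 : S6 ⊕ ℕ) :=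
      Primrec.list_map Primrec.list_range (Primrec.const _)
    refine this.of_eq fun n => ?_
    simp [T, A]
  have h2 : Primrec fun x : ℕ => 2 ^ x :=
    (Primrec₂.unpaired'.1 Nat.Primrec.pow).comp (Primrec.const 2) Primrec.id
  refine Primrec.to_comp ?_
  exact Primrec.list_cons.comp ((Primrec.const 0).pair (Primrec.list_cons.comp (Primrec.const _)
    (Primrec.list_append.comp (h1.comp h2) (Primrec.const _)))) (Primrec.const _)

theorem main : ¬ ComputablePred fun G : List Rule =>
    ∃ w, w ∈ (cfg G).language ∧ w ∈ B (X tau) := by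
  obtain ⟨P, hP⟩ := exists_undec
  intro h
  apply hP
  have h2 : ComputablePred fun x : ℕ => ∃ w, w ∈ (cfg (gram P x)).language ∧ w ∈ B (X tau) := by
    obtain ⟨d, hd⟩ := h
    exact ⟨fun c => d _, hd.comp (gram_computable P)⟩
  exact h2.of_eq fun x => ⟨fun ⟨w, h1, h2⟩ => gram_sound P x h1 h2, gram_complete P x⟩

end Pool.Agent.H38.Sub
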