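import Mathlib

namespace Pool.Agent.H38.Sub

variable {S : Type}

/-- Extension of a substitution to words by concatenation. -/
def app (τ : S → List S) (w : List S) : List S := w.flatMap τ

/-- The word `x_i x_{i+1} ... x_{i+n-1}`. -/
def win (x : ℤ → S) (i : ℤ) (n : ℕ) : List S := List.ofFn fun j : Fin n => x (i + (j : ℕ))

/-- The subshift generated by the substitution `τ`. -/
def X (τ : S → List S) : Set (ℤ → S) :=
  {x | ∀ (i : ℤ) (n : ℕ), ∃ (k : ℕ) (a : S), win x i n <:+: (app τ)^[k] [a]}

/-- The language of a set of bi-infinite sequences. -/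
def B (Y : Set (ℤ → S)) : Set (List S) := {w | ∃ x ∈ Y, ∃ i : ℤ, w = win x i w.length}

/-- Left summands are terminals, right summands are nonterminals. -/
def sym : S ⊕ ℕ → Symbol S ℕ
  | .inl t => .terminal t
  | .inr k => .nonterminal k

/-- The context-free grammar given by a list of rules; nonterminals are numbers, `0` is initial. -/
def cfg [DecidableEq S] (G : List (ℕ × List (S ⊕ ℕ))) : ContextFreeGrammar S :=
  ⟨ℕ, 0, (G.map fun r => (⟨r.1, r.2.map sym⟩ : ContextFreeRule S ℕ)).toFinset⟩

end Pool.Agent.H38.Sub
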