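import Pool.Agent.H38.CM.UecDefs
import Pool.Agent.H38.CM.Queue

namespace Pool.Agent.H38.Uec

open Pool.Agent.H38.CM Relation

theorem UEC_equiv {A A' : Type} (e : A ≃ A') (h g : A' → List ℕ) :
    UEC (fun a => h (e a)) (fun a => g (e a)) ↔ UEC h g := by
  have key : ∀ {A A' : Type} (e : A ≃ A') (h g : A' → List ℕ), UEC h g →
      UEC (fun a => h (e a)) (fun a => g (e a)) := by
    intro A A' e h g H u a b hab h1 h2
    have := H (u.map e) (e a) (e b) (fun x => hab (e.injective x))
      (by simpa [List.flatMap_map] using h1) (by simpa [List.flatMap_map] using h2)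
    simpa [List.flatMap_map] using this
  exact ⟨fun H => by simpa using key e.symm _ _ H, key e h g⟩

theorem Cmp.cancel {p u v : List ℕ} : Cmp (p ++ u) (p ++ v) ↔ Cmp u v := by
  simp [Cmp, List.prefix_append_right_inj]

theorem Cmp.head {a b : ℕ} {u v : List ℕ} (h : Cmp (a :: u) (b :: v)) : a = b := by
  rcases h with h | h
  · exact (List.cons_prefix_cons.1 h).1
  · exact (List.cons_prefix_cons.1 h).1.symm

theorem Cmp.init {u v u' v' : List ℕ} (h : Cmp (u ++ u') (v ++ v')) : Cmp u v := by
  rcases h with h | h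
  · exact List.prefix_or_prefix_of_prefix ((List.prefix_append _ _).trans h)
      (List.prefix_append _ _)
  · exact List.prefix_or_prefix_of_prefix (List.prefix_append _ _)
      ((List.prefix_append _ _).trans h)

section

variable (P : W) (M : ℕ) (idx : Option (St P) → ℕ)

def lo (x i : ℕ) : List ℕ := (List.range' 0 i).map (Nat.pair x)
def hi (x i : ℕ) : List ℕ := (List.range' i (M - i)).map (Nat.pair x)
def enc (l : List ℕ) : List ℕ := l.flatMap fun x => lo x M

theorem lo_hi (x i : ℕ) (h : i ≤ M) : lo x M = lo x i ++ hi M x i := by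
  rw [lo, lo, hi, ← List.map_append]
  congr 1
  have := List.range'_append_1 (s := 0) (m := i) (n := M - i)
  rw [zero_add, show i + (M - i) = M by omega] at this
  exact this.symm

theorem lo_cons (x i : ℕ) (h : 0 < i) : ∃ t, lo x i = Nat.pair x 0 :: t := by
  obtain ⟨i, rfl⟩ : ∃ j, i = j + 1 := ⟨i - 1, by omega⟩
  exact ⟨_, rfl⟩

theorem hi_cons (x i : ℕ) (h : i < M) : ∃ t, hi M x i = Nat.pair x i :: t := by
  obtain ⟨j, hj⟩ : ∃ j, M - i = j + 1 := ⟨M - i - 1, by omega⟩
  exact ⟨_, by rw [hi, hj]; rfl⟩

theorem enc_cons (x : ℕ) (l : List ℕ) : enc M (x :: l) = lo x M ++ enc M l := rfl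
theorem enc_append (l l' : List ℕ) : enc M (l ++ l') = enc M l ++ enc M l' := by simp [enc]

def dl : Option (St P) → ℕ → Option (St P) × List ℕ
  | none, x => (none, [x])
  | some s, x => qs P s x

theorem dl_ne_nil : ∀ q x, (dl P q x).2 ≠ []
  | none, x => by simp [dl]
  | some s, x => qs_ne_nil P s x

abbrev Tl : Type := (Option (St P) × Fin (bd P) × Fin (bd P)) ⊕ (Fin (bd P) × Fin (bd P))

def tq : Tl P → Option (St P) × ℕ × ℕ
  | .inl (q, x, y) => (q, x, y)
  | .inr (x, y) => (none, x, y)

def th (a : Tl P) : List ℕ := enc M (dl P (tq P a).1 (tq P a).2.1).2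
def tg (a : Tl P) : List ℕ :=
  hi M (tq P a).2.1 (idx (tq P a).1) ++ lo (tq P a).2.2 (idx (dl P (tq P a).1 (tq P a).2.1).1)

def sh (n : ℕ) : List ℕ := enc M (1 :: (List.replicate n 2 ++ [0]))
def sg : List ℕ := lo 1 (idx (some (entry P)))

def H (n : ℕ) : Option (Tl P) → List ℕ
  | none => sh M n
  | some a => th P M a
def G : Option (Tl P) → List ℕ
  | none => sg P idx
  | some a => tg P M idx a

variable {P M idx} (hinj : Function.Injective idx) (h0 : ∀ q, 0 < idx q) (hM : ∀ q, idx q < M)
include hinj h0 hM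

theorem next_uniq {n : ℕ} {q : Option (St P)} {x : ℕ} {t : List ℕ} {a : Option (Tl P)}
    (hc : Cmp (hi M x (idx q) ++ enc M t ++ H P M n a) (G P M idx a)) :
    ∃ b y t', a = some b ∧ tq P b = (q, x, y) ∧ t ++ (dl P q x).2 = y :: t' := by
  obtain ⟨r, hr⟩ := hi_cons M x _ (hM q)
  cases a with
  | none =>
    obtain ⟨r', hr'⟩ := lo_cons 1 _ (h0 (some (entry P)))
    simp only [G, sg, hr, hr', List.cons_append] at hc
    have := (Nat.pair_eq_pair.1 hc.head).2
    have := h0 q
    omega
  | some b =>
    rcases hb : tq P b with ⟨q', x', y⟩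
    simp only [G, H, th, tg, hb] at hc
    obtain ⟨r', hr'⟩ := hi_cons M x' _ (hM q')
    have hc' := hc
    simp only [hr, hr', List.cons_append] at hc'
    obtain ⟨rfl, e⟩ := Nat.pair_eq_pair.1 hc'.head
    cases hinj e
    rw [List.append_assoc, Cmp.cancel, ← enc_append] at hc
    obtain ⟨y', t', e2⟩ := List.exists_cons_of_ne_nil
      (show t ++ (dl P q x).2 ≠ [] by simp [dl_ne_nil])
    obtain ⟨r1, hr1⟩ := lo_cons y' M (by have := hM q; omega)
    obtain ⟨r2, hr2⟩ := lo_cons y _ (h0 (dl P q x).1)
    rw [e2, enc_cons, hr1, hr2, List.cons_append] at hc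
    obtain ⟨rfl, -⟩ := Nat.pair_eq_pair.1 hc.head
    exact ⟨b, y', t', rfl, hb, e2⟩

omit hinj h0 in
theorem next_eq {n : ℕ} {q : Option (St P)} {x y : ℕ} {t t' : List ℕ} {b : Tl P}
    (hb : tq P b = (q, x, y)) (e : t ++ (dl P q x).2 = y :: t') :
    hi M x (idx q) ++ enc M t ++ H P M n (some b) =
      G P M idx (some b) ++ (hi M y (idx (dl P q x).1) ++ enc M t') := by
  simp only [G, H, th, tg, hb]
  rw [List.append_assoc, ← enc_append, e, enc_cons, lo_hi M y _ (hM (dl P q x).1).le]
  simp

omit hinj h0 in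
theorem start_eq (n : ℕ) : H P M n none = G P M idx none ++
    (hi M 1 (idx (some (entry P))) ++ enc M (List.replicate n 2 ++ [0])) := by
  simp only [G, H, sh, sg]
  rw [enc_cons, lo_hi M 1 _ (hM (some (entry P))).le]
  simp

theorem uec_of_not {n : ℕ} (hn : ¬ ∃ l', ReflTransGen (QStep P)
    (some (entry P), (1 :: List.replicate n 2) ++ [0]) (none, l')) :
    UEC (H P M n) (G P M idx) := by
  have key : ∀ u : List (Option (Tl P)), Cmp (u.flatMap (H P M n)) (u.flatMap (G P M idx)) →
      u = [] ∨ ∃ s x t, ReflTransGen (QStep P)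
        (some (entry P), (1 :: List.replicate n 2) ++ [0]) (some s, x :: t) ∧
        u.flatMap (H P M n) = u.flatMap (G P M idx) ++ (hi M x (idx (some s)) ++ enc M t) := by
    intro u
    induction u using List.reverseRecOn with
    | nil => exact fun _ => Or.inl rfl
    | append_singleton u a ih =>
      intro hc
      right
      simp only [List.flatMap_append, List.flatMap_singleton] at hc ⊢
      rcases ih hc.init with rfl | ⟨s, x, t, hr, e⟩
      · cases a with
        | none => exact ⟨_, 1, _, ReflTransGen.refl, by simpa using start_eq hM n⟩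
        | some b =>
          exfalso
          obtain ⟨y, t', e2⟩ := List.exists_cons_of_ne_nil (dl_ne_nil P (tq P b).1 (tq P b).2.1)
          obtain ⟨r1, hr1⟩ := lo_cons y M (by have := hM none; omega)
          obtain ⟨r2, hr2⟩ := hi_cons M (tq P b).2.1 _ (hM (tq P b).1)
          simp only [List.flatMap_nil, List.nil_append, H, G, th, tg, e2, enc_cons, hr1, hr2,
            List.cons_append] at hc
          have := (Nat.pair_eq_pair.1 hc.head).2
          have := h0 (tq P b).1
          omega
      · rw [e, List.append_assoc, Cmp.cancel] at hc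
        obtain ⟨b, y, t', rfl, hb, e2⟩ := next_uniq hinj h0 hM hc
        have hs : QStep P (some s, x :: t) ((dl P (some s) x).1, y :: t') :=
          ⟨s, x, t, rfl, by rw [← e2]; rfl⟩
        cases hq : (dl P (some s) x).1 with
        | none => exact absurd ⟨_, hr.tail (hq ▸ hs)⟩ hn
        | some s' =>
          refine ⟨s', y, t', hr.tail (hq ▸ hs), ?_⟩
          rw [e, List.append_assoc, next_eq hM hb e2, hq, List.append_assoc]
  intro u a b hab h1 h2
  simp only [List.flatMap_append, List.flatMap_singleton] at h1 h2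
  rcases key u h1.init with rfl | ⟨s, x, t, hr, e⟩
  · rfl
  · exfalso
    rw [e, List.append_assoc, Cmp.cancel] at h1 h2
    obtain ⟨a, y, t', rfl, ha, e1⟩ := next_uniq hinj h0 hM h1
    obtain ⟨b, y', t'', rfl, hb, e2⟩ := next_uniq hinj h0 hM h2
    rw [e1] at e2
    obtain ⟨rfl, -⟩ := List.cons.inj e2
    apply hab
    rcases a with ⟨q1, x1, y1⟩ | ⟨x1, y1⟩ <;> rcases b with ⟨q2, x2, y2⟩ | ⟨x2, y2⟩ <;>
      simp only [tq, Prod.mk.injEq, reduceCtorEq, false_and] at ha hb
    obtain ⟨rfl, a1, a2⟩ := ha
    obtain ⟨rfl, b1, b2⟩ := hb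
    rw [Fin.ext (a1.trans b1.symm), Fin.ext (a2.trans b2.symm)]

omit hinj h0 in
theorem not_uec {n : ℕ} (hn : ∃ l', ReflTransGen (QStep P)
    (some (entry P), (1 :: List.replicate n 2) ++ [0]) (none, l')) :
    ¬ UEC (H P M n) (G P M idx) := by
  have key : ∀ c, ReflTransGen (QStep P) (some (entry P), (1 :: List.replicate n 2) ++ [0]) c →
      ∃ (x : ℕ) (t : List ℕ) (u : List (Option (Tl P))), c.2 = x :: t ∧ (∀ y ∈ c.2, y < bd P) ∧
        u.flatMap (H P M n) = u.flatMap (G P M idx) ++ (hi M x (idx c.1) ++ enc M t) := by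
    intro c hc
    induction hc with
    | refl =>
      have := bd_ge P
      refine ⟨1, _, [none], rfl, ?_, by simpa using start_eq hM n⟩
      simp only [List.cons_append, List.mem_cons, List.mem_append, List.mem_replicate]
      rintro y (h | h | h | h) <;> first | omega | simp at h
    | tail _ hs ih =>
      obtain ⟨s, x, t, rfl, rfl⟩ := hs
      obtain ⟨_, _, u, e0, hb, e⟩ := ih
      obtain ⟨rfl, rfl⟩ := List.cons.inj e0
      obtain ⟨y, t', e2⟩ := List.exists_cons_of_ne_nil
        (show t ++ (dl P (some s) x).2 ≠ [] by simp [dl_ne_nil])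
      have hx : x < bd P := hb x (by simp)
      have hall : ∀ z ∈ t ++ (qs P s x).2, z < bd P := by
        intro z hz
        rcases List.mem_append.1 hz with hz | hz
        · exact hb z (by simp [hz])
        · exact qs_lt _ P s x le_rfl hx z hz
      have hy : y < bd P := hall y (by rw [show t ++ (qs P s x).2 = y :: t' from e2]; simp)
      refine ⟨y, t', u ++ [some (.inl (some s, ⟨x, hx⟩, ⟨y, hy⟩))], e2, hall, ?_⟩
      simp only [List.flatMap_append, List.flatMap_singleton]
      rw [e, List.append_assoc, next_eq hM (q := some s) (x := x) (y := y) rfl e2,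
        List.append_assoc]
      rfl
  obtain ⟨l', hl⟩ := hn
  obtain ⟨x, t, u, e0, hb, e⟩ := key _ hl
  simp only at e0 hb e
  subst e0
  obtain ⟨y, t', e2⟩ := List.exists_cons_of_ne_nil
    (show t ++ (dl P none x).2 ≠ [] by simp [dl_ne_nil])
  have hx : x < bd P := hb x (by simp)
  have hy : y < bd P := by
    have : y ∈ t ++ [x] := by rw [show t ++ [x] = y :: t' from e2]; simp
    exact hb y (by simp at this ⊢; tauto)
  intro hU
  have := hU u (some (.inl (none, ⟨x, hx⟩, ⟨y, hy⟩))) (some (.inr (⟨x, hx⟩, ⟨y, hy⟩))) (by simp)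
    (by
      simp only [List.flatMap_append, List.flatMap_singleton]
      rw [e, List.append_assoc, next_eq hM (q := none) (x := x) (y := y) rfl e2, Cmp.cancel]
      exact Or.inr (List.prefix_append _ _))
    (by
      simp only [List.flatMap_append, List.flatMap_singleton]
      rw [e, List.append_assoc, next_eq hM (q := none) (x := x) (y := y) rfl e2, Cmp.cancel]
      exact Or.inr (List.prefix_append _ _))
  obtain ⟨r, hr⟩ := hi_cons M x _ (hM none)
  rw [e, hr] at this
  simp at this

end

theorem main : ¬ ComputablePred fun L : List (List ℕ × List ℕ) =>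
    UEC (fun i : Fin L.length => (L.get i).1) (fun i : Fin L.length => (L.get i).2) := by
  obtain ⟨P, hP⟩ := exists_undec
  haveI := St.finite P
  obtain ⟨m, ⟨e⟩⟩ := Finite.exists_equiv_fin (Option (St P))
  obtain ⟨k, ⟨f⟩⟩ := Finite.exists_equiv_fin (Tl P)
  let idx : Option (St P) → ℕ := fun q => e q + 1
  have hinj : Function.Injective idx := fun a b h =>
    e.injective (Fin.ext (by simpa [idx] using h))
  have h0 : ∀ q, 0 < idx q := fun q => Nat.succ_pos _
  have hM : ∀ q, idx q < m + 1 := fun q => Nat.succ_lt_succ (e q).2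
  let rest : List (List ℕ × List ℕ) :=
    List.ofFn fun i : Fin k => (th P (m + 1) (f.symm i), tg P (m + 1) idx (f.symm i))
  let inst : ℕ → List (List ℕ × List ℕ) := fun n => (sh (m + 1) n, sg P idx) :: rest
  have hc : Computable inst := by
    refine Primrec.to_comp (Primrec.list_cons.comp (Primrec.pair ?_ (Primrec.const _))
      (Primrec.const _))
    have : Primrec fun n : ℕ => lo 1 (m + 1) ++
        (((List.range n).flatMap fun _ => lo 2 (m + 1)) ++ lo 0 (m + 1)) :=
      Primrec.list_append.comp (Primrec.const _) (Primrec.list_append.comp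
        (Primrec.list_flatMap Primrec.list_range (Primrec.const _)) (Primrec.const _))
    refine this.of_eq fun n => ?_
    rw [sh, enc_cons, enc_append]
    congr 2
    · induction n with
      | zero => rfl
      | succ n ih => rw [List.range_succ, List.replicate_succ', enc_append, ← ih]; simp [enc]
    · simp [enc]
  have hiff : ∀ n, UEC (fun i : Fin (inst n).length => ((inst n).get i).1)
      (fun i : Fin (inst n).length => ((inst n).get i).2) ↔
      UEC (H P (m + 1) n) (G P (m + 1) idx) := by
    intro n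
    have hl : rest.length = k := by simp [rest]
    let E : Fin (rest.length + 1) ≃ Option (Tl P) :=
      (finSuccEquiv _).trans (Equiv.optionCongr ((finCongr hl).trans f.symm))
    rw [← UEC_equiv E]
    have : ∀ i : Fin (rest.length + 1), (inst n).get i =
        (H P (m + 1) n (E i), G P (m + 1) idx (E i)) := by
      intro i
      refine Fin.cases rfl (fun j => ?_) i
      simp [inst, E, H, G, rest]
      exact ⟨rfl, rfl⟩
    show UEC (fun i : Fin (rest.length + 1) => ((inst n).get i).1)
      (fun i : Fin (rest.length + 1) => ((inst n).get i).2) ↔ _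
    simp only [this]
  intro h
  apply hP
  have h2 : ComputablePred fun n : ℕ => UEC (fun i : Fin (inst n).length => ((inst n).get i).1)
      (fun i : Fin (inst n).length => ((inst n).get i).2) := by
    obtain ⟨d, hd⟩ := h
    exact ⟨fun c => d _, hd.comp hc⟩
  refine h2.not.of_eq fun n => ?_
  have hr : Rep (1 :: List.replicate n 2) (init n) :=
    ⟨by simp [List.mem_replicate], fun r => by
      rw [List.count_cons_of_ne (by omega)]; exact (rep_init n).2 r⟩
  rw [hiff, halts_iff P _ _ hr]
  exact ⟨fun h => by_contra fun h' => h (uec_of_not hinj h0 hM h'), not_uec hM⟩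

end Pool.Agent.H38.Uec
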