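import Pool.Agent.H38.CM.Uec

/-! PCP is undecidable on unique equality continuation instances. -/

namespace Pool.Agent.H38.Uec2

open Pool.Agent.H38.CM Pool.Agent.H38.Uec Relation

theorem _root_.Pool.Agent.H38.Uec.Cmp.trans' {u v w : List ℕ} (h : Cmp u v) (e : w = v) :
    Cmp u w := e ▸ h

section

variable (P : W) (M : ℕ) (idx : Option (St P) → ℕ)

abbrev Tl : Type := (St P × Fin (bd P) × Fin (bd P)) ⊕ (Fin (bd P) × Fin (bd P)) ⊕
  (Fin (bd P) × Fin (bd P)) ⊕ Unit

def th : Tl P → List ℕ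
  | .inl (s, x, _) => enc M (qs P s x).2
  | .inr (.inl (x, _)) => enc M [x + 1]
  | .inr (.inr (.inl _)) => enc M [0]
  | .inr (.inr (.inr _)) => [Nat.pair 0 M]

def tg : Tl P → List ℕ
  | .inl (s, x, y) => hi M x (idx (some s)) ++ lo y (idx (qs P s x).1)
  | .inr (.inl (x, y)) => hi M (x + 1) (idx none) ++ lo y (idx none)
  | .inr (.inr (.inl (y, z))) => hi M 0 (idx none) ++ (lo (y + 1) M ++ lo z (idx none))
  | .inr (.inr (.inr _)) => hi M 0 (idx none) ++ [Nat.pair 0 M]

def H (n : ℕ) : Option (Tl P) → List ℕ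
  | none => sh M n
  | some a => th P M a
def G : Option (Tl P) → List ℕ
  | none => sg P idx
  | some a => tg P M idx a

/-- The tile `a` fits the configuration `(q, x :: t)` and leads to `r`. -/
def Fit (q : Option (St P)) (x : ℕ) (t : List ℕ) :
    Tl P → Option (Option (St P) × ℕ × List ℕ) → Prop
  | .inl (s, x', y), r => q = some s ∧ x = x'.val ∧
      ∃ t' : List ℕ, t ++ (qs P s x).2 = y.val :: t' ∧ r = some ((qs P s x).1, y.val, t')
  | .inr (.inl (x', y)), r => q = none ∧ x = x'.val + 1 ∧ ∃ t' : List ℕ, t ++ [x] = y.val :: t' ∧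
      r = some (none, y.val, t')
  | .inr (.inr (.inl (y, z))), r => q = none ∧ x = 0 ∧ ∃ t' : List ℕ,
      t ++ [0] = (y.val + 1) :: z.val :: t' ∧ r = some (none, z.val, t')
  | .inr (.inr (.inr _)), r => q = none ∧ x = 0 ∧ t = [] ∧ r = none

def ov : Option (Option (St P) × ℕ × List ℕ) → List ℕ
  | none => []
  | some (q, x, t) => hi M x (idx q) ++ enc M t

variable {P M idx}

theorem Fit.uniq {q : Option (St P)} {x : ℕ} {t : List ℕ} {a b : Tl P} {r r'}
    (ha : Fit P q x t a r) (hb : Fit P q x t b r') : a = b := by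
  rcases a with ⟨s, x1, y1⟩ | ⟨x1, y1⟩ | ⟨y1, z1⟩ | u1 <;>
    rcases b with ⟨s', x2, y2⟩ | ⟨x2, y2⟩ | ⟨y2, z2⟩ | u2 <;> simp only [Fit] at ha hb
  · obtain ⟨rfl, rfl, t1, e1, -⟩ := ha
    obtain ⟨e, e', t2, e2, -⟩ := hb
    cases e
    rw [e1] at e2
    rw [Fin.ext e', Fin.ext (List.cons.inj e2).1]
  all_goals first
    | (have := ha.1.symm.trans hb.1; simp at this; done)
    | omega
    | rfl
    | skip
  · obtain ⟨-, rfl, t1, e1, -⟩ := ha
    obtain ⟨-, e', t2, e2, -⟩ := hb
    rw [e1] at e2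
    rw [Fin.ext (Nat.succ.inj e'), Fin.ext (List.cons.inj e2).1]
  · obtain ⟨-, -, t1, e1, -⟩ := ha
    obtain ⟨-, -, t2, e2, -⟩ := hb
    rw [e1] at e2
    simp only [List.cons.injEq, add_left_inj] at e2
    rw [Fin.ext e2.1, Fin.ext e2.2.1]
  · obtain ⟨-, -, t1, e1, -⟩ := ha
    obtain ⟨-, -, rfl, -⟩ := hb
    simp at e1
  · obtain ⟨-, -, t1, e1, -⟩ := hb
    obtain ⟨-, -, rfl, -⟩ := ha
    simp at e1

variable (hinj : Function.Injective idx) (h0 : ∀ q, 0 < idx q) (hM : ∀ q, idx q < M)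
include hinj h0 hM

omit hinj h0 in
theorem Fit.eq {n : ℕ} {q : Option (St P)} {x : ℕ} {t : List ℕ} {a : Tl P} {r}
    (ha : Fit P q x t a r) :
    ov P M idx (some (q, x, t)) ++ H P M n (some a) = G P M idx (some a) ++ ov P M idx r := by
  rcases a with ⟨s, x1, y1⟩ | ⟨x1, y1⟩ | ⟨y1, z1⟩ | u1 <;> simp only [Fit] at ha
  · obtain ⟨rfl, rfl, t1, e1, rfl⟩ := ha
    simp only [G, H, th, tg, ov]
    rw [List.append_assoc, ← enc_append, e1, enc_cons, lo_hi M y1 _ (hM (qs P s x1).1).le]
    simp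
  · obtain ⟨rfl, rfl, t1, e1, rfl⟩ := ha
    simp only [G, H, th, tg, ov]
    rw [List.append_assoc, ← enc_append, e1, enc_cons, lo_hi M y1 _ (hM none).le]
    simp
  · obtain ⟨rfl, rfl, t1, e1, rfl⟩ := ha
    simp only [G, H, th, tg, ov]
    rw [List.append_assoc, ← enc_append, e1, enc_cons, enc_cons, lo_hi M z1 _ (hM none).le]
    simp
  · obtain ⟨rfl, rfl, rfl, rfl⟩ := ha
    simp [G, H, th, tg, ov, enc]

theorem hi_cmp {x x' : ℕ} {q q' : Option (St P)} {u v : List ℕ}
    (h : Cmp (hi M x (idx q) ++ u) (hi M x' (idx q') ++ v)) : q = q' ∧ x = x' ∧ Cmp u v := by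
  obtain ⟨r, hr⟩ := hi_cons M x _ (hM q)
  obtain ⟨r', hr'⟩ := hi_cons M x' _ (hM q')
  have hc' := h
  simp only [hr, hr', List.cons_append] at hc'
  obtain ⟨rfl, e⟩ := Nat.pair_eq_pair.1 hc'.head
  cases hinj e
  exact ⟨rfl, rfl, Cmp.cancel.1 h⟩

omit hinj h0 hM in
theorem enc_cmp {l v : List ℕ} {y i : ℕ} (hl : l ≠ []) (hi : 0 < i) (hM : 0 < M)
    (h : Cmp (enc M l) (lo y i ++ v)) : ∃ t, l = y :: t := by
  obtain ⟨y', t', rfl⟩ := List.exists_cons_of_ne_nil hl
  obtain ⟨r1, hr1⟩ := lo_cons y' M hM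
  obtain ⟨r2, hr2⟩ := lo_cons y _ hi
  rw [enc_cons, hr1, hr2, List.cons_append, List.cons_append] at h
  obtain ⟨rfl, -⟩ := Nat.pair_eq_pair.1 h.head
  exact ⟨t', rfl⟩

theorem fit_of_cmp {n : ℕ} {q : Option (St P)} {x : ℕ} {t : List ℕ} {a : Option (Tl P)}
    (hc : Cmp (ov P M idx (some (q, x, t)) ++ H P M n a) (G P M idx a)) :
    ∃ b r, a = some b ∧ Fit P q x t b r := by
  have hM0 : 0 < M := by have := hM q; omega
  cases a with
  | none =>
    obtain ⟨r, hr⟩ := hi_cons M x _ (hM q)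
    obtain ⟨r', hr'⟩ := lo_cons 1 _ (h0 (some (entry P)))
    simp only [G, sg, ov, hr, hr', List.cons_append] at hc
    have := (Nat.pair_eq_pair.1 hc.head).2
    have := h0 q
    omega
  | some a =>
    rcases a with ⟨s, x1, y1⟩ | ⟨x1, y1⟩ | ⟨y1, z1⟩ | u1 <;>
      simp only [G, H, th, tg, ov, List.append_assoc, ← enc_append] at hc <;>
      replace hc := hi_cmp hinj h0 hM hc <;> obtain ⟨rfl, rfl, hc⟩ := hc
    · obtain ⟨t', e⟩ := enc_cmp (by simp [qs_ne_nil]) (h0 _) hM0 (hc.trans' (List.append_nil _))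
      exact ⟨_, _, rfl, rfl, rfl, t', e, rfl⟩
    · obtain ⟨t', e⟩ := enc_cmp (by simp) (h0 _) hM0 (hc.trans' (List.append_nil _))
      exact ⟨_, _, rfl, rfl, rfl, t', e, rfl⟩
    · obtain ⟨t', e⟩ := enc_cmp (by simp) hM0 hM0 hc
      rw [e, enc_cons, Cmp.cancel] at hc
      have ht' : t' ≠ [] := by
        rintro rfl
        have := congrArg List.getLast? e
        simp at this
      obtain ⟨t'', rfl⟩ := enc_cmp (v := []) (y := z1) ht' (h0 _) hM0 (by simpa using hc)
      exact ⟨_, _, rfl, rfl, rfl, t'', e, rfl⟩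
    · refine ⟨_, none, rfl, rfl, rfl, ?_, rfl⟩
      cases t with
      | nil => rfl
      | cons y t =>
        obtain ⟨r1, hr1⟩ := lo_cons y M hM0
        rw [enc_cons, hr1] at hc
        have := (Nat.pair_eq_pair.1 hc.head).2
        omega

theorem start_of_cmp {n : ℕ} {a : Option (Tl P)} (hc : Cmp (H P M n a) (G P M idx a)) :
    a = none := by
  have hM0 : 0 < M := by have := hM none; omega
  cases a with
  | none => rfl
  | some a =>
    exfalso
    have h1 : ∃ y j r, th P M a = Nat.pair y j :: r ∧ (j = 0 ∨ j = M) := by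
      rcases a with ⟨s, x1, y1⟩ | ⟨x1, y1⟩ | ⟨y1, z1⟩ | u1
      · obtain ⟨y, t, e⟩ := List.exists_cons_of_ne_nil (qs_ne_nil P s x1)
        obtain ⟨r, hr⟩ := lo_cons y M hM0
        exact ⟨y, 0, _, by simp only [th, e, enc_cons, hr]; rfl, Or.inl rfl⟩
      · obtain ⟨r, hr⟩ := lo_cons (x1 + 1) M hM0
        exact ⟨_, 0, _, by simp only [th, enc_cons, hr]; rfl, Or.inl rfl⟩
      · obtain ⟨r, hr⟩ := lo_cons 0 M hM0
        exact ⟨_, 0, _, by simp only [th, enc_cons, hr]; rfl, Or.inl rfl⟩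
      · exact ⟨0, M, [], rfl, Or.inr rfl⟩
    have h2 : ∃ y q r, tg P M idx a = hi M y (idx q) ++ r := by
      rcases a with ⟨s, x1, y1⟩ | ⟨x1, y1⟩ | ⟨y1, z1⟩ | u1 <;> exact ⟨_, _, _, rfl⟩
    obtain ⟨y, j, r, e1, hj⟩ := h1
    obtain ⟨y', q, r', e2⟩ := h2
    obtain ⟨r2, hr2⟩ := hi_cons M y' _ (hM q)
    simp only [H, G, e1, e2, hr2, List.cons_append] at hc
    have := (Nat.pair_eq_pair.1 hc.head).2
    have := h0 q
    have := hM q
    omega

omit hinj h0 in
theorem start_eq' (n : ℕ) : H P M n none = G P M idx none ++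
    ov P M idx (some (some (entry P), 1, List.replicate n 2 ++ [0])) := start_eq hM n

/-- General invariant principle for words with comparable images. -/
theorem inv (n : ℕ) (Q : Option (Option (St P) × ℕ × List ℕ) → Prop)
    (hs : Q (some (some (entry P), 1, List.replicate n 2 ++ [0])))
    (hf : ∀ q x t b r, Q (some (q, x, t)) → Fit P q x t b r → Q r)
    (u : List (Option (Tl P))) (hc : Cmp (u.flatMap (H P M n)) (u.flatMap (G P M idx))) :
    u = [] ∨ ∃ r, Q r ∧ u.flatMap (H P M n) = u.flatMap (G P M idx) ++ ov P M idx r := by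
  induction u using List.reverseRecOn with
  | nil => exact Or.inl rfl
  | append_singleton u a ih =>
    right
    simp only [List.flatMap_append, List.flatMap_singleton] at hc ⊢
    have h1 : u.flatMap (H P M n) = u.flatMap (G P M idx) → ∃ r, Q r ∧
        u.flatMap (H P M n) ++ H P M n a = u.flatMap (G P M idx) ++ G P M idx a ++ ov P M idx r := by
      intro e
      rw [e, Cmp.cancel] at hc
      cases start_of_cmp hinj h0 hM hc
      exact ⟨_, hs, by rw [e, start_eq' hM n, List.append_assoc]⟩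
    rcases ih hc.init with rfl | ⟨_ | ⟨q, x, t⟩, hr, e⟩
    · exact h1 rfl
    · exact h1 (by simpa [ov] using e)
    · rw [e, List.append_assoc, Cmp.cancel] at hc
      obtain ⟨b, r, rfl, hb⟩ := fit_of_cmp hinj h0 hM hc
      exact ⟨r, hf _ _ _ _ _ hr hb, by rw [e, List.append_assoc, hb.eq hM, List.append_assoc]⟩

theorem uec (n : ℕ) : UEC (H P M n) (G P M idx) := by
  intro u a b hab h1 h2
  simp only [List.flatMap_append, List.flatMap_singleton] at h1 h2
  rcases inv hinj h0 hM n (fun _ => True) trivial (fun _ _ _ _ _ _ _ => trivial) u h1.init with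
    rfl | ⟨_ | ⟨q, x, t⟩, -, e⟩
  · rfl
  · simpa [ov] using e
  · exfalso
    rw [e, List.append_assoc, Cmp.cancel] at h1 h2
    obtain ⟨a, r, rfl, ha⟩ := fit_of_cmp hinj h0 hM h1
    obtain ⟨b, r', rfl, hb⟩ := fit_of_cmp hinj h0 hM h2
    exact hab (by rw [ha.uniq hb])

theorem halts_of_sol (n : ℕ) (u : List (Option (Tl P))) (hu : u ≠ [])
    (e : u.flatMap (H P M n) = u.flatMap (G P M idx)) : ∃ l', ReflTransGen (QStep P)
      (some (entry P), (1 :: List.replicate n 2) ++ [0]) (none, l') := by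
  by_contra hn
  rcases inv hinj h0 hM n (fun r => ∃ s x t, r = some (some s, x, t) ∧ ReflTransGen (QStep P)
      (some (entry P), (1 :: List.replicate n 2) ++ [0]) (some s, x :: t))
      ⟨_, _, _, rfl, ReflTransGen.refl⟩ (by
        rintro q x t b r ⟨s, x', t', e, hr⟩ hb
        cases e
        rcases b with ⟨s, x1, y1⟩ | ⟨x1, y1⟩ | ⟨y1, z1⟩ | u1 <;> simp only [Fit] at hb
        · obtain ⟨e, rfl, t1, e1, rfl⟩ := hb
          cases e
          have hs : QStep P (some s, x1 :: t) ((qs P s x1).1, y1 :: t1) :=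
            ⟨s, x1, t, rfl, by rw [← e1]⟩
          cases hq : (qs P s x1).1 with
          | none => exact absurd ⟨_, hr.tail (hq ▸ hs)⟩ hn
          | some s' => exact ⟨s', _, _, rfl, hr.tail (hq ▸ hs)⟩
        all_goals exact absurd hb.1 (by simp)) u (Or.inl (e ▸ List.prefix_rfl)) with
    rfl | ⟨_, ⟨s, x, t, rfl, -⟩, e'⟩
  · exact hu rfl
  · obtain ⟨r, hr⟩ := hi_cons M x _ (hM (some s))
    rw [e] at e'
    simp [ov, hr] at e'

/-- `Can r` says that some nonempty word has overflow `r`. -/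
def Can (P : W) (M : ℕ) (idx : Option (St P) → ℕ) (n : ℕ)
    (r : Option (Option (St P) × ℕ × List ℕ)) : Prop :=
  ∃ u : List (Option (Tl P)), u ≠ [] ∧
    u.flatMap (H P M n) = u.flatMap (G P M idx) ++ ov P M idx r

omit hinj h0 in
theorem Can.step {n : ℕ} {q : Option (St P)} {x : ℕ} {t : List ℕ} {r}
    (h : Can P M idx n (some (q, x, t))) (b : Tl P) (hb : Fit P q x t b r) : Can P M idx n r := by
  obtain ⟨u, -, e⟩ := h
  refine ⟨u ++ [some b], by simp, ?_⟩
  simp only [List.flatMap_append, List.flatMap_singleton]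
  rw [e, List.append_assoc, hb.eq hM, List.append_assoc]

omit hinj h0 in
theorem can_run {n : ℕ} : ∀ c, ReflTransGen (QStep P)
    (some (entry P), (1 :: List.replicate n 2) ++ [0]) c →
    ∃ x t, c.2 = x :: t ∧ (∀ y ∈ c.2, y < bd P) ∧ Can P M idx n (some (c.1, x, t)) := by
  intro c hc
  induction hc with
  | refl =>
    have := bd_ge P
    refine ⟨1, _, rfl, ?_, [none], by simp, by simpa using start_eq' hM n⟩
    simp only [List.cons_append, List.mem_cons, List.mem_append, List.mem_replicate]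
    rintro y (h | h | h | h) <;> first | omega | simp at h
  | tail _ hs ih =>
    obtain ⟨s, x, t, rfl, rfl⟩ := hs
    obtain ⟨_, _, e0, hb, e⟩ := ih
    obtain ⟨rfl, rfl⟩ := List.cons.inj e0
    obtain ⟨y, t', e2⟩ := List.exists_cons_of_ne_nil
      (show t ++ (qs P s x).2 ≠ [] by simp [qs_ne_nil])
    have hx : x < bd P := hb x (by simp)
    have hall : ∀ z ∈ t ++ (qs P s x).2, z < bd P := by
      intro z hz
      rcases List.mem_append.1 hz with hz | hz
      · exact hb z (by simp [hz])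
      · exact qs_lt _ P s x le_rfl hx z hz
    have hy : y < bd P := hall y (by rw [e2]; simp)
    exact ⟨y, t', e2, hall, e.step hM (.inl (s, ⟨x, hx⟩, ⟨y, hy⟩)) ⟨rfl, rfl, t', e2, rfl⟩⟩

omit hinj h0 in
theorem can_rot {n : ℕ} (l : List ℕ) : ∀ (m : List ℕ) (x : ℕ) (t : List ℕ), 0 ∉ l →
    (∀ y ∈ l ++ m, y < bd P) → l ++ 0 :: m = x :: t → Can P M idx n (some (none, x, t)) →
    Can P M idx n (some (none, 0, m ++ l)) := by
  have := bd_ge P
  induction l with
  | nil =>
    intro m x t _ _ e h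
    obtain ⟨rfl, rfl⟩ := List.cons.inj e
    simpa using h
  | cons a l ih =>
    intro m x t h0 hb e h
    obtain ⟨rfl, rfl⟩ := List.cons.inj e
    obtain ⟨y, t', e2⟩ := List.exists_cons_of_ne_nil (show l ++ 0 :: (m ++ [a]) ≠ [] by simp)
    have ha : a < bd P := hb a (by simp)
    have ha0 : a ≠ 0 := fun e => h0 (by simp [e])
    have hy : y < bd P := by
      have : y ∈ l ++ 0 :: (m ++ [a]) := by rw [e2]; simp
      simp only [List.mem_append, List.mem_cons, List.not_mem_nil, or_false] at this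
      rcases this with h | h | h | h
      · exact hb y (by simp [h])
      · omega
      · exact hb y (by simp [h])
      · omega
    have := ih (m ++ [a]) y t' (fun h => h0 (by simp [h])) (fun z hz => hb z (by
      simp only [List.mem_append, List.mem_cons, List.not_mem_nil, or_false] at hz ⊢; tauto)) e2
      (h.step hM (.inr (.inl (⟨a - 1, by omega⟩, ⟨y, hy⟩)))
        ⟨rfl, by simp; omega, t', by simpa using e2, rfl⟩)
    simpa using this

omit hinj h0 in
theorem can_fin {n : ℕ} (l : List ℕ) : ∀ (x : ℕ) (t : List ℕ), 0 ∉ l →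
    (∀ y ∈ l, y < bd P) → l ++ [0] = x :: t → Can P M idx n (some (none, x, t)) →
    Can P M idx n none := by
  have := bd_ge P
  induction l with
  | nil =>
    intro x t _ _ e h
    obtain ⟨rfl, rfl⟩ := List.cons.inj e
    exact h.step hM (.inr (.inr (.inr ()))) ⟨rfl, rfl, rfl, rfl⟩
  | cons a l ih =>
    intro x t h0 hb e h
    have h1 := can_rot hM (a :: l) [] x t h0 (by simpa using hb) e h
    obtain ⟨y, t', e2⟩ := List.exists_cons_of_ne_nil (show l ++ [0] ≠ [] by simp)
    have ha : a < bd P := hb a (by simp)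
    have ha0 : a ≠ 0 := fun e => h0 (by simp [e])
    have hy : y < bd P := by
      have : y ∈ l ++ [0] := by rw [e2]; simp
      simp only [List.mem_append, List.mem_cons, List.not_mem_nil, or_false] at this
      rcases this with h | h
      · exact hb y (by simp [h])
      · omega
    refine ih y t' (fun h => h0 (by simp [h])) (fun z hz => hb z (by simp [hz])) e2
      (h1.step hM (.inr (.inr (.inl (⟨a - 1, by omega⟩, ⟨y, hy⟩)))) ⟨rfl, rfl, t', ?_, rfl⟩)
    simp only [List.nil_append, List.cons_append, e2]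
    congr 1; omega

theorem sol_iff (n : ℕ) : (∃ u : List (Option (Tl P)), u ≠ [] ∧
    u.flatMap (H P M n) = u.flatMap (G P M idx)) ↔ ∃ v, Ev P (init n) v := by
  have hr : Rep (1 :: List.replicate n 2) (init n) :=
    ⟨by simp [List.mem_replicate], fun r => by
      rw [List.count_cons_of_ne (by omega)]; exact (rep_init n).2 r⟩
  constructor
  · rintro ⟨u, hu, e⟩
    exact (halts_iff P _ _ hr).2 (halts_of_sol hinj h0 hM n u hu e)
  · rintro ⟨v, hv⟩
    obtain ⟨l', r', hl⟩ := run_of_ev hv _ hr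
    obtain ⟨x, t, e, hb, hc⟩ := can_run (idx := idx) hM _ hl
    obtain ⟨u, hu, e'⟩ := can_fin hM l' x t r'.1 (fun y hy => hb y (by simp [hy])) e hc
    exact ⟨u, hu, by simpa [ov] using e'⟩

end

theorem lists {A : Type} {N : ℕ} (E : Fin N ≃ A) (h : A → List ℕ) (L : List (List ℕ))
    (hL : ∀ i : Fin N, L.getD i [] = h (E i)) (u : List A) :
    (u.map fun a => (E.symm a : ℕ)).flatMap (fun i => L.getD i []) = u.flatMap h := by
  simp only [List.flatMap_map, hL, Equiv.apply_symm_apply]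

theorem lift {A : Type} {N : ℕ} (E : Fin N ≃ A) (u : List ℕ) (hu : ∀ i ∈ u, i < N) :
    ∃ u' : List A, u = u'.map fun a => (E.symm a : ℕ) := by
  induction u with
  | nil => exact ⟨[], rfl⟩
  | cons a u ih =>
    obtain ⟨u', rfl⟩ := ih (fun i hi => hu i (by simp [hi]))
    exact ⟨E ⟨a, hu a (by simp)⟩ :: u', by simp⟩

theorem main :
    ¬ (∃ P : List (List ℕ) × List (List ℕ) → Prop, ComputablePred P ∧
      ∀ H G : List (List ℕ), H.length = G.length →
        (∀ u : List ℕ, (∀ i ∈ u, i < H.length) →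
          ∀ a b : ℕ, a < H.length → b < H.length → a ≠ b →
            Cmp ((u ++ [a]).flatMap (fun i => H.getD i [])) ((u ++ [a]).flatMap (fun i => G.getD i [])) →
            Cmp ((u ++ [b]).flatMap (fun i => H.getD i [])) ((u ++ [b]).flatMap (fun i => G.getD i [])) →
            u.flatMap (fun i => H.getD i []) = u.flatMap (fun i => G.getD i [])) →
        (P (H, G) ↔ ∃ x : List ℕ, x ≠ [] ∧ (∀ i ∈ x, i < H.length) ∧
          x.flatMap (fun i => H.getD i []) = x.flatMap (fun i => G.getD i []))) := by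
  rintro ⟨D, hD, hspec⟩
  obtain ⟨P, hP⟩ := exists_undec
  haveI := St.finite P
  obtain ⟨m, ⟨e⟩⟩ := Finite.exists_equiv_fin (Option (St P))
  obtain ⟨k, ⟨f⟩⟩ := Finite.exists_equiv_fin (Tl P)
  let idx : Option (St P) → ℕ := fun q => e q + 1
  have hinj : Function.Injective idx := fun a b h =>
    e.injective (Fin.ext (by simpa [idx] using h))
  have h0 : ∀ q, 0 < idx q := fun q => Nat.succ_pos _
  have hM : ∀ q, idx q < m + 1 := fun q => Nat.succ_lt_succ (e q).2
  let HL : ℕ → List (List ℕ) := fun n =>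
    sh (m + 1) n :: List.ofFn fun i : Fin k => th P (m + 1) (f.symm i)
  let GG : List (List ℕ) := sg P idx :: List.ofFn fun i : Fin k => tg P (m + 1) idx (f.symm i)
  have hc : Computable fun n => (HL n, GG) := by
    refine Primrec.to_comp (Primrec.pair (Primrec.list_cons.comp ?_ (Primrec.const _))
      (Primrec.const _))
    have : Primrec fun n : ℕ => lo 1 (m + 1) ++
        (((List.range n).flatMap fun _ => lo 2 (m + 1)) ++ lo 0 (m + 1)) :=
      Primrec.list_append.comp (Primrec.const _) (Primrec.list_append.comp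
        (Primrec.list_flatMap Primrec.list_range (Primrec.const _)) (Primrec.const _))
    refine this.of_eq fun n => ?_
    rw [sh, enc_cons, enc_append]
    congr 2
    · induction n with
      | zero => rfl
      | succ n ih => rw [List.range_succ, List.replicate_succ', enc_append, ← ih]; simp [enc]
    · simp [enc]
  let E : Fin (k + 1) ≃ Option (Tl P) := (finSuccEquiv _).trans (Equiv.optionCongr f.symm)
  have hH : ∀ n (i : Fin (k + 1)), (HL n).getD i [] = H P (m + 1) n (E i) := by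
    intro n i
    refine Fin.cases rfl (fun j => ?_) i
    simp [HL, E]
    rfl
  have hG : ∀ i : Fin (k + 1), GG.getD i [] = G P (m + 1) idx (E i) := by
    intro i
    refine Fin.cases rfl (fun j => ?_) i
    simp [GG, E]
    rfl
  apply hP
  have h2 : ComputablePred fun n : ℕ => D (HL n, GG) := by
    obtain ⟨d, hd⟩ := hD
    exact ⟨fun c => d _, hd.comp hc⟩
  refine h2.of_eq fun n => ?_
  have hl : (HL n).length = k + 1 := by simp [HL]
  rw [hspec (HL n) GG (by simp [HL, GG]), ← sol_iff hinj h0 hM n, hl]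
  · constructor
    · rintro ⟨x, h1, h2, h3⟩
      obtain ⟨u, rfl⟩ := lift E x h2
      rw [lists E _ _ (hH n), lists E _ _ hG] at h3
      exact ⟨u, by simpa using h1, h3⟩
    · rintro ⟨u, h1, h3⟩
      refine ⟨u.map fun a => (E.symm a : ℕ), by simpa using h1, ?_, ?_⟩
      · intro i hi
        obtain ⟨a, -, rfl⟩ := List.mem_map.1 hi
        exact (E.symm a).2
      · rw [lists E _ _ (hH n), lists E _ _ hG, h3]
  · rw [hl]
    intro u hu a b ha hb hab h1 h2
    obtain ⟨u, rfl⟩ := lift E u hu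
    rw [lists E _ _ (hH n), lists E _ _ hG]
    refine uec hinj h0 hM n u (E ⟨a, ha⟩) (E ⟨b, hb⟩) (by simpa using hab) ?_ ?_
    · rw [← lists E _ _ (hH n), ← lists E _ _ hG]; simpa using h1
    · rw [← lists E _ _ (hH n), ← lists E _ _ hG]; simpa using h2

end Pool.Agent.H38.Uec2
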