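import Mathlib

namespace Pool.Agent.H38.Uec

/-- Two words are comparable if one is an initial segment of the other. -/
def Cmp (u v : List ℕ) : Prop := u <+: v ∨ v <+: u

/-- The pair of morphisms determined by the letter images `h`, `g` is a unique equality
continuation instance. -/
def UEC {A : Type} (h g : A → List ℕ) : Prop :=
  ∀ (u : List A) (a b : A), a ≠ b →
    Cmp ((u ++ [a]).flatMap h) ((u ++ [a]).flatMap g) →
    Cmp ((u ++ [b]).flatMap h) ((u ++ [b]).flatMap g) →
    u.flatMap h = u.flatMap g

end Pool.Agent.H38.Uec
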